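import Mathlib

/-! Satake parameters of a cuspidal representation of `GL(2)` over a quadratic extension `E / K`, and the Asai
`L`-functions of its adjoint lifts. -/

set_option autoImplicit false

namespace Pool.Agent.R398.AS

open NumberField IsDedekindDomain

/-- the norm of a finite place -/
noncomputable def Nm {K : Type} [Field K] [NumberField K] (v : HeightOneSpectrum (𝓞 K)) : ℕ :=
  Ideal.absNorm v.asIdeal

variable {K E : Type} [Field K] [NumberField K] [Field E] [NumberField E] [Algebra K E]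

/-- the place `w` of `E` lies above the place `v` of `K` -/
def Above (v : HeightOneSpectrum (𝓞 K)) (w : HeightOneSpectrum (𝓞 E)) : Prop :=
  w.asIdeal.comap (algebraMap (𝓞 K) (𝓞 E)) = v.asIdeal

variable (E) in
/-- the place `v` of `K` is inert in `E`: it generates a prime ideal of the ring of integers of `E` -/
def Inert (v : HeightOneSpectrum (𝓞 K)) : Prop :=
  (v.asIdeal.map (algebraMap (𝓞 K) (𝓞 E))).IsPrime

variable (E) in
open scoped Classical in
/-- the quadratic character of `E / K`, at the places of `K` which are unramified in `E` -/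
noncomputable def eta (v : HeightOneSpectrum (𝓞 K)) : ℂ := if Inert E v then -1 else 1

/-- `1 + ∑_{1 ≤ j ≤ m} (ρ^{jk} + ρ^{-jk})`, `ρ = a_0 / a_1`: the trace of the `k`-th power of the Satake parameter of
`A^{2m} π = Sym^{2m} π ⊗ ω_π^{-m}` at a place at which `π` has the Satake parameters `a_0, a_1` -/
noncomputable def tr (m : ℕ) (a : Fin 2 → ℂ) (k : ℕ) : ℂ :=
  1 + ∑ j ∈ Finset.Icc 1 m, ((a 0 / a 1) ^ (j * k) + (a 1 / a 0) ^ (j * k))

open scoped Classical in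
/-- the trace of the `k`-th power of the Satake parameter at `v` of the Asai lift of `A^{2m} π`: if `v` is inert and
`w` is the place above `v`, this is `tr A^{2m}(π_w)^k` for odd `k` and `(tr A^{2m}(π_w)^{k/2})²` for even `k`; if `v`
splits it is the product of the `tr A^{2m}(π_w)^k` over the two places `w` above `v` -/
noncomputable def asaiTr (m : ℕ) (α : HeightOneSpectrum (𝓞 E) → Fin 2 → ℂ) (v : HeightOneSpectrum (𝓞 K)) (k : ℕ) : ℂ :=
  ∏ᶠ w ∈ {w : HeightOneSpectrum (𝓞 E) | Above v w},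
    if Inert E v ∧ Even k then tr m (α w) (k / 2) ^ 2 else tr m (α w) k

/-- the logarithm of the partial Asai `L`-function of `A^{2m} π`, twisted by `ε`:
`∑_{v ∉ S} ∑_{k ≥ 1} ε(v)^k (trace) / k · (N v)^{-ks}` -/
noncomputable def logAsai (S : Finset (HeightOneSpectrum (𝓞 K))) (m : ℕ)
    (α : HeightOneSpectrum (𝓞 E) → Fin 2 → ℂ) (ε : HeightOneSpectrum (𝓞 K) → ℂ) (s : ℂ) : ℂ :=
  ∑' x : {v : HeightOneSpectrum (𝓞 K) // v ∉ S} × ℕ,
    ε x.1.1 ^ (x.2 + 1) * asaiTr m α x.1.1 (x.2 + 1) / ((x.2 : ℂ) + 1) * (((Nm x.1.1 : ℕ) : ℂ) ^ (-s)) ^ (x.2 + 1)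

/-- What is used of the cuspidal representation `π` of `GL(2)` over `E`. -/
structure CuspidalGL2 (S : Finset (HeightOneSpectrum (𝓞 K))) (α : HeightOneSpectrum (𝓞 E) → Fin 2 → ℂ) : Prop where
  /-- the local components are unitary -/
  unitary : ∀ w : HeightOneSpectrum (𝓞 E), (∀ v ∈ S, ¬ Above v w) → (∀ i, α w i ≠ 0) ∧
    ∃ τ : Equiv.Perm (Fin 2), ∀ i, α w (τ i) = ((starRingEnd ℂ) (α w i))⁻¹
  /-- the bound of Kim and Sarnak, Blomer and Brumley -/
  bound : ∀ w : HeightOneSpectrum (𝓞 E), (∀ v ∈ S, ¬ Above v w) → ∀ i, ‖α w i‖ ≤ (Nm w : ℝ) ^ (7 / 64 : ℝ)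
  /-- the Rankin-Selberg series of `A⁴ π` converges for `Re s > 1` -/
  rankinSelberg : ∀ σ : ℝ, 1 < σ →
    Summable fun w : {w : HeightOneSpectrum (𝓞 E) // ∀ v ∈ S, ¬ Above v w} =>
      ‖tr 2 (α w.1) 1‖ ^ 2 * (Nm w.1 : ℝ) ^ (-σ)
  /-- the Euler products of the Asai `L`-functions converge absolutely for `Re s > 2` -/
  summable : ∀ m : ℕ, m = 1 ∨ m = 2 → ∀ σ : ℝ, 2 < σ →
    Summable fun x : {v : HeightOneSpectrum (𝓞 K) // v ∉ S} × ℕ =>
      ‖asaiTr m α x.1.1 (x.2 + 1)‖ / ((x.2 : ℝ) + 1) * ((Nm x.1.1 : ℝ) ^ (-σ)) ^ (x.2 + 1)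
  /-- the Asai `L`-functions of `A² π` and `A⁴ π` and their twists by `η` are holomorphic for `Re s > 1/2`, and without
  zeros for `Re s ≥ 1` -/
  asai : ∀ m : ℕ, m = 1 ∨ m = 2 → ∀ ε : HeightOneSpectrum (𝓞 K) → ℂ, ε = 1 ∨ ε = eta E →
    ∃ F : ℂ → ℂ, DifferentiableOn ℂ F {s | 1 / 2 < s.re} ∧ (∀ s : ℂ, 1 ≤ s.re → F s ≠ 0) ∧
      ∀ s : ℂ, 2 < s.re → F s = Complex.exp (logAsai S m α ε s)

end Pool.Agent.R398.AS
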