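import Mathlib
import Pool.Agent.R398.AS.Defs

/-! Local computations. -/

set_option autoImplicit false

namespace Pool.Agent.R398.AS

/-- the parameters of a unitary representation -/
def Uni (a : Fin 2 → ℂ) : Prop :=
  (∀ i, a i ≠ 0) ∧ ∃ τ : Equiv.Perm (Fin 2), ∀ i, a (τ i) = ((starRingEnd ℂ) (a i))⁻¹

theorem uni_cases {a : Fin 2 → ℂ} (h : Uni a) :
    (‖a 0‖ = 1 ∧ ‖a 1‖ = 1) ∨ a 1 = ((starRingEnd ℂ) (a 0))⁻¹ := by
  obtain ⟨h0, τ, hτ⟩ := h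
  have key : ∀ z : ℂ, z ≠ 0 → z = ((starRingEnd ℂ) z)⁻¹ → ‖z‖ = 1 := by
    intro z hz h
    have h1 : ‖z‖ = ‖z‖⁻¹ := by
      conv_lhs => rw [h]
      rw [norm_inv, RCLike.norm_conj]
    have h2 : 0 < ‖z‖ := norm_pos_iff.2 hz
    have h3 : ‖z‖ * ‖z‖ = 1 := by
      nth_rewrite 2 [h1]
      exact mul_inv_cancel₀ h2.ne'
    nlinarith
  have hh : τ 0 = 0 ∨ τ 0 = 1 := by
    generalize τ 0 = x
    fin_cases x <;> simp
  rcases hh with h1 | h1
  · left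
    have h2 : τ 1 = 1 := by
      have h3 : τ 1 ≠ τ 0 := fun hh => by simpa using τ.injective hh
      rw [h1] at h3
      omega
    refine ⟨key _ (h0 0) ?_, key _ (h0 1) ?_⟩
    · have := hτ 0
      rwa [h1] at this
    · have := hτ 1
      rwa [h2] at this
  · right
    have := hτ 0
    rwa [h1] at this

/-- the size of the ratio of the parameters -/
noncomputable def MM (a : Fin 2 → ℂ) : ℝ := max ‖a 0 / a 1‖ ‖a 1 / a 0‖

theorem one_le_MM {a : Fin 2 → ℂ} (h : ∀ i, a i ≠ 0) : 1 ≤ MM a := by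
  unfold MM
  by_contra hc
  push Not at hc
  have h1 := (le_max_left _ _).trans_lt hc
  have h2 := (le_max_right _ _).trans_lt hc
  have h3 : ‖a 0 / a 1‖ * ‖a 1 / a 0‖ = 1 := by
    rw [← norm_mul, div_mul_div_cancel₀ (h 1), div_self (h 0), norm_one]
  have h4 : 0 ≤ ‖a 0 / a 1‖ := norm_nonneg _
  have h5 : 0 ≤ ‖a 1 / a 0‖ := norm_nonneg _
  nlinarith

/-- `ρ^k + ρ^{-k}` -/
noncomputable def yy (a : Fin 2 → ℂ) (k : ℕ) : ℂ := (a 0 / a 1) ^ k + (a 1 / a 0) ^ k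

theorem yy_conj {a : Fin 2 → ℂ} (h : Uni a) (k : ℕ) : (starRingEnd ℂ) (yy a k) = yy a k := by
  unfold yy
  have h0 := h.1 0
  have h1 := h.1 1
  rcases uni_cases h with ⟨ha, hb⟩ | hc
  · have e0 : (starRingEnd ℂ) (a 0) = (a 0)⁻¹ := by
      rw [Complex.inv_def, Complex.normSq_eq_norm_sq, ha]; simp
    have e1 : (starRingEnd ℂ) (a 1) = (a 1)⁻¹ := by
      rw [Complex.inv_def, Complex.normSq_eq_norm_sq, hb]; simp
    rw [map_add, map_pow, map_pow, map_div₀, map_div₀, e0, e1, add_comm]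
    congr 2 <;> field_simp
  · have hc0 : (starRingEnd ℂ) (a 0) ≠ 0 := (map_ne_zero _).2 h0
    rw [map_add, map_pow, map_pow, map_div₀, map_div₀, hc, map_inv₀, Complex.conj_conj]
    congr 2 <;> field_simp

theorem yy_im {a : Fin 2 → ℂ} (h : Uni a) (k : ℕ) : (yy a k).im = 0 :=
  Complex.conj_eq_iff_im.1 (yy_conj h k)

theorem norm_yy_le {a : Fin 2 → ℂ} (k : ℕ) : ‖yy a k‖ ≤ 2 * MM a ^ k := by
  unfold yy
  refine (norm_add_le _ _).trans ?_
  rw [norm_pow, norm_pow, two_mul]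
  exact add_le_add (pow_le_pow_left₀ (norm_nonneg _) (le_max_left _ _) _)
    (pow_le_pow_left₀ (norm_nonneg _) (le_max_right _ _) _)

theorem tr_one (a : Fin 2 → ℂ) (k : ℕ) : tr 1 a k = 1 + yy a k := by
  unfold tr yy
  simp

theorem tr_two (a : Fin 2 → ℂ) (k : ℕ) : tr 2 a k = 1 + yy a k + yy a (2 * k) := by
  unfold tr yy
  rw [show Finset.Icc 1 2 = {1, 2} by rfl, Finset.sum_pair (by norm_num)]
  ring

theorem tr_im {a : Fin 2 → ℂ} (h : Uni a) {m : ℕ} (hm : m = 1 ∨ m = 2) (k : ℕ) : (tr m a k).im = 0 := by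
  rcases hm with rfl | rfl
  · rw [tr_one, Complex.add_im, yy_im h]; simp
  · rw [tr_two, Complex.add_im, Complex.add_im, yy_im h, yy_im h]; simp

theorem norm_tr_le {a : Fin 2 → ℂ} (h : Uni a) {m : ℕ} (hm : m = 1 ∨ m = 2) (k : ℕ) :
    ‖tr m a k‖ ≤ 5 * MM a ^ (2 * k) := by
  have h1 := one_le_MM h.1
  have h2 : 1 ≤ MM a ^ (2 * k) := one_le_pow₀ h1
  have h3 : MM a ^ k ≤ MM a ^ (2 * k) := pow_le_pow_right₀ h1 (by omega)
  have h4 := norm_yy_le (a := a) k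
  have h5 := norm_yy_le (a := a) (2 * k)
  rcases hm with rfl | rfl
  · rw [tr_one]
    refine (norm_add_le _ _).trans ?_
    rw [norm_one]
    linarith
  · rw [tr_two]
    refine (norm_add_le _ _).trans ?_
    have := norm_add_le (1 : ℂ) (yy a k)
    rw [norm_one] at this
    linarith

/-- the square of the absolute value of the trace -/
noncomputable def zz (a : Fin 2 → ℂ) : ℝ := ‖∑ i, a i‖ ^ 2

theorem yy_one {a : Fin 2 → ℂ} (h : Uni a) : yy a 1 = ((zz a - 2 : ℝ) : ℂ) := by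
  unfold yy zz
  have h0 := h.1 0
  have h1 := h.1 1
  rw [Fin.sum_univ_two]
  push_cast
  rw [← Complex.mul_conj', map_add, pow_one, pow_one]
  rcases uni_cases h with ⟨ha, hb⟩ | hc
  · have e0 : (starRingEnd ℂ) (a 0) = (a 0)⁻¹ := by
      rw [Complex.inv_def, Complex.normSq_eq_norm_sq, ha]; simp
    have e1 : (starRingEnd ℂ) (a 1) = (a 1)⁻¹ := by
      rw [Complex.inv_def, Complex.normSq_eq_norm_sq, hb]; simp
    rw [e0, e1]
    field_simp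
    ring
  · have hc0 : (starRingEnd ℂ) (a 0) ≠ 0 := (map_ne_zero _).2 h0
    rw [hc, map_inv₀, Complex.conj_conj]
    field_simp
    ring

theorem yy_two {a : Fin 2 → ℂ} (h : Uni a) : yy a 2 = (((zz a - 2) ^ 2 - 2 : ℝ) : ℂ) := by
  have h1 := yy_one h
  have h2 : yy a 2 = yy a 1 ^ 2 - 2 := by
    unfold yy
    have h0 := h.1 0
    have h1 := h.1 1
    field_simp
    ring
  rw [h2, h1]
  push_cast
  ring

theorem tr_one_one {a : Fin 2 → ℂ} (h : Uni a) : tr 1 a 1 = ((zz a - 1 : ℝ) : ℂ) := by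
  rw [tr_one, yy_one h]
  push_cast
  ring

theorem tr_two_one {a : Fin 2 → ℂ} (h : Uni a) : tr 2 a 1 = ((zz a ^ 2 - 3 * zz a + 1 : ℝ) : ℂ) := by
  rw [tr_two, yy_one h, mul_one, yy_two h]
  push_cast
  ring

theorem zz_nonneg (a : Fin 2 → ℂ) : 0 ≤ zz a := sq_nonneg _

theorem nontemp_cases {a : Fin 2 → ℂ} (h : Uni a) (hn : ¬ ∀ i, ‖a i‖ = 1) :
    a 1 = ((starRingEnd ℂ) (a 0))⁻¹ := by
  rcases uni_cases h with ⟨ha, hb⟩ | hc
  · exfalso
    apply hn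
    intro i
    fin_cases i
    · exact ha
    · exact hb
  · exact hc

theorem four_le_zz {a : Fin 2 → ℂ} (h : Uni a) (hn : ¬ ∀ i, ‖a i‖ = 1) : 4 ≤ zz a := by
  have hc := nontemp_cases h hn
  have h0 : 0 < ‖a 0‖ := norm_pos_iff.2 (h.1 0)
  have h1 : yy a 1 = ((‖a 0‖ ^ 2 + (‖a 0‖ ^ 2)⁻¹ : ℝ) : ℂ) := by
    unfold yy
    have h0' := h.1 0
    have hc0 : (starRingEnd ℂ) (a 0) ≠ 0 := (map_ne_zero _).2 h0'
    push_cast
    rw [← Complex.mul_conj', hc]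
    field_simp
  have h2 := yy_one h
  rw [h1] at h2
  have h3 := Complex.ofReal_injective h2
  have h4 : 0 < ‖a 0‖ ^ 2 := by positivity
  have h5 : 2 ≤ ‖a 0‖ ^ 2 + (‖a 0‖ ^ 2)⁻¹ := by
    have : 0 ≤ (‖a 0‖ ^ 2 - 1) ^ 2 / ‖a 0‖ ^ 2 := by positivity
    have e : (‖a 0‖ ^ 2 - 1) ^ 2 / ‖a 0‖ ^ 2 = ‖a 0‖ ^ 2 + (‖a 0‖ ^ 2)⁻¹ - 2 := by
      field_simp
      ring
    linarith
  linarith

theorem MM_le {a : Fin 2 → ℂ} (h : Uni a) {B : ℝ} (hB1 : 1 ≤ B) (hB : ∀ i, ‖a i‖ ≤ B) : MM a ≤ B ^ 2 := by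
  unfold MM
  rw [norm_div, norm_div]
  rcases uni_cases h with ⟨ha, hb⟩ | hc
  · rw [ha, hb, div_one, max_self]
    exact one_le_pow₀ hB1
  · have h0 : 0 < ‖a 0‖ := norm_pos_iff.2 (h.1 0)
    have h1 : ‖a 1‖ = ‖a 0‖⁻¹ := by rw [hc, norm_inv, RCLike.norm_conj]
    have h2 : ‖a 0‖ = ‖a 1‖⁻¹ := by rw [h1, inv_inv]
    have hb0 := hB 0
    have hb1 := hB 1
    refine max_le ?_ ?_
    · rw [h1, div_inv_eq_mul, ← sq]
      exact pow_le_pow_left₀ h0.le hb0 2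
    · rw [h2, div_inv_eq_mul, ← sq]
      exact pow_le_pow_left₀ (norm_nonneg _) hb1 2

theorem MM_four {a : Fin 2 → ℂ} (h : Uni a) : MM a ^ 4 ≤ 1 + ‖tr 2 a 1‖ ^ 2 := by
  by_cases hn : ∀ i, ‖a i‖ = 1
  · have : MM a = 1 := by
      unfold MM
      rw [norm_div, norm_div, hn 0, hn 1]
      norm_num
    rw [this]
    have := sq_nonneg ‖tr 2 a 1‖
    linarith
  · have hz := four_le_zz h hn
    have h1 : MM a ≤ zz a - 2 := by
      have hc := nontemp_cases h hn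
      have h0 : 0 < ‖a 0‖ := norm_pos_iff.2 (h.1 0)
      have e1 : ‖a 1‖ = ‖a 0‖⁻¹ := by rw [hc, norm_inv, RCLike.norm_conj]
      have h1 : yy a 1 = ((‖a 0‖ ^ 2 + (‖a 0‖ ^ 2)⁻¹ : ℝ) : ℂ) := by
        unfold yy
        have h0' := h.1 0
        have hc0 : (starRingEnd ℂ) (a 0) ≠ 0 := (map_ne_zero _).2 h0'
        push_cast
        rw [← Complex.mul_conj', hc]
        field_simp
      have h2 := yy_one h
      rw [h1] at h2
      have h3 := Complex.ofReal_injective h2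
      unfold MM
      rw [norm_div, norm_div, e1, ← h3, div_inv_eq_mul, ← sq]
      have h4 : 0 < ‖a 0‖ ^ 2 := by positivity
      have h5 : 0 < (‖a 0‖ ^ 2)⁻¹ := by positivity
      refine max_le (by linarith) ?_
      have : ‖a 0‖⁻¹ / ‖a 0‖ = (‖a 0‖ ^ 2)⁻¹ := by
        field_simp
      rw [this]
      linarith
    have h2 : ‖tr 2 a 1‖ = zz a ^ 2 - 3 * zz a + 1 := by
      rw [tr_two_one h, Complex.norm_real, Real.norm_of_nonneg (by nlinarith)]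
    rw [h2]
    have h3 : 1 ≤ MM a := one_le_MM h.1
    have h4 : MM a ^ 2 ≤ (zz a - 2) ^ 2 := pow_le_pow_left₀ (by linarith) h1 2
    have h5 : MM a ^ 4 ≤ ((zz a - 2) ^ 2) ^ 2 := by
      calc MM a ^ 4 = (MM a ^ 2) ^ 2 := by ring
        _ ≤ _ := pow_le_pow_left₀ (by positivity) h4 2
    have h6 : (zz a - 2) ^ 2 ≤ zz a ^ 2 - 3 * zz a + 1 := by nlinarith
    have h7 : ((zz a - 2) ^ 2) ^ 2 ≤ (zz a ^ 2 - 3 * zz a + 1) ^ 2 :=
      pow_le_pow_left₀ (by positivity) h6 2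
    linarith

end Pool.Agent.R398.AS
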