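import Mathlib
import Pool.Agent.R398.AS.Local
import Pool.Agent.TH861.GL3.Main

/-! Inert places. -/

set_option autoImplicit false

namespace Pool.Agent.R398.AS

open NumberField IsDedekindDomain

variable {K E : Type} [Field K] [NumberField K] [Field E] [NumberField E] [Algebra K E]

/-- the place of `E` above an inert place of `K` -/
noncomputable def up (v : HeightOneSpectrum (𝓞 K)) (h : Inert E v) : HeightOneSpectrum (𝓞 E) :=
  ⟨v.asIdeal.map (algebraMap (𝓞 K) (𝓞 E)), h, Ideal.map_ne_bot_of_ne_bot v.ne_bot⟩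

theorem above_iff {v : HeightOneSpectrum (𝓞 K)} (h : Inert E v) (w : HeightOneSpectrum (𝓞 E)) :
    Above v w ↔ w = up v h := by
  unfold Above
  constructor
  · intro hw
    have h1 : v.asIdeal.map (algebraMap (𝓞 K) (𝓞 E)) ≤ w.asIdeal := by
      rw [Ideal.map_le_iff_le_comap, hw]
    have h2 : (up v h).asIdeal.IsMaximal := (up v h).isPrime.isMaximal (up v h).ne_bot
    have h3 : (up v h).asIdeal = w.asIdeal := h2.eq_of_le w.isPrime.ne_top h1
    exact (HeightOneSpectrum.ext h3).symm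
  · rintro rfl
    have h1 : v.asIdeal ≤ (up v h).asIdeal.comap (algebraMap (𝓞 K) (𝓞 E)) :=
      Ideal.map_le_iff_le_comap.1 le_rfl
    have h2 : v.asIdeal.IsMaximal := v.isPrime.isMaximal v.ne_bot
    have h3 : (up v h).asIdeal.comap (algebraMap (𝓞 K) (𝓞 E)) ≠ ⊤ := by
      intro h4
      have h5 := (up v h).isPrime.ne_top
      rw [Ideal.eq_top_iff_one] at h4
      rw [Ideal.mem_comap, map_one] at h4
      exact h5 ((Ideal.eq_top_iff_one _).2 h4)
    exact (h2.eq_of_le h3 h1).symm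

theorem Nm_up (h2 : Module.finrank K E = 2) {v : HeightOneSpectrum (𝓞 K)} (h : Inert E v) :
    Nm (up v h) = Nm v ^ 2 := by
  unfold Nm up
  rw [Ideal.absNorm_algebraMap, ← h2, ← IsFractionRing.finrank_eq (𝓞 K) K (𝓞 E) E]

open scoped Classical in
theorem asaiTr_inert {m : ℕ} {α : HeightOneSpectrum (𝓞 E) → Fin 2 → ℂ} {v : HeightOneSpectrum (𝓞 K)}
    (h : Inert E v) (j : ℕ) : asaiTr m α v (2 * j + 1) = tr m (α (up v h)) (2 * j + 1) := by
  unfold asaiTr
  have h1 : {w : HeightOneSpectrum (𝓞 E) | Above v w} = {up v h} := by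
    ext w
    simp only [Set.mem_ofPred_eq, Set.mem_singleton_iff]
    exact above_iff h w
  rw [h1, finprod_mem_singleton, if_neg]
  rintro ⟨_, h3⟩
  exact (Nat.not_even_iff_odd.2 ⟨j, rfl⟩) h3

/-- the inert places outside `S` -/
abbrev IP (E : Type) [Field E] [NumberField E] [Algebra K E] (S : Finset (HeightOneSpectrum (𝓞 K))) :=
  {v : HeightOneSpectrum (𝓞 K) // v ∉ S ∧ Inert E v}

theorem above_out {S : Finset (HeightOneSpectrum (𝓞 K))} (v : IP E S) :
    ∀ u ∈ S, ¬ Above u (up v.1 v.2.2) := by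
  intro u hu hc
  have h1 : Above v.1 (up v.1 v.2.2) := (above_iff v.2.2 _).2 rfl
  have h2 : u = v.1 := HeightOneSpectrum.ext (hc.symm.trans h1)
  exact v.2.1 (h2 ▸ hu)

theorem up_injective {S : Finset (HeightOneSpectrum (𝓞 K))} :
    Function.Injective fun v : IP E S => up v.1 v.2.2 := by
  intro v u h
  have h1 : Above v.1 (up v.1 v.2.2) := (above_iff v.2.2 _).2 rfl
  have h2 : Above u.1 (up v.1 v.2.2) := (above_iff u.2.2 _).2 h
  exact Subtype.ext (HeightOneSpectrum.ext (h1.symm.trans h2))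

theorem two_le_Nm (v : HeightOneSpectrum (𝓞 K)) : 2 ≤ Nm v := Pool.Agent.TH861.GL3.two_le_qq v

theorem Nm_pos (v : HeightOneSpectrum (𝓞 K)) : (0 : ℝ) < Nm v := by
  have := two_le_Nm v
  exact_mod_cast (by omega : 0 < Nm v)

theorem two_le_Nm' (v : HeightOneSpectrum (𝓞 K)) : (2 : ℝ) ≤ Nm v := by exact_mod_cast two_le_Nm v

theorem summable_Nm {σ : ℝ} (hσ : 1 < σ) : Summable fun v : HeightOneSpectrum (𝓞 K) => (Nm v : ℝ) ^ (-σ) :=
  H921R2.TatePole.nm_summable (K := K) hσ

theorem countable_places : Countable (HeightOneSpectrum (𝓞 K)) := Pool.Agent.TH861.GL3.countable_primes K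

end Pool.Agent.R398.AS
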