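import Mathlib
import Pool.Agent.R398.AS.Places
import Pool.Agent.W189.TP.Land

/-! Extension of Dirichlet series from `Re s > 2`. -/

set_option autoImplicit false

namespace Pool.Agent.R398.AS

open Pool.Agent.W189.TP Filter Topology

section

variable {ι : Type*} {d L : ι → ℝ}

theorem DS_scale (s : ℂ) : DS d (fun i => 2 * L i) s = DS d L (2 * s) := by
  unfold DS
  refine tsum_congr fun i => ?_
  congr 2
  push_cast
  ring

theorem exp_scale (t : ℝ) (i : ι) : Real.exp (-(t * (2 * L i))) = Real.exp (-((2 * t) * L i)) := by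
  congr 1
  ring

theorem diff_scale {U : ℂ → ℂ} {σ : ℝ} (hU : DifferentiableOn ℂ U {s | σ < s.re}) :
    DifferentiableOn ℂ (fun s => U (2 * s)) {s | σ / 2 < s.re} := by
  refine hU.comp (by fun_prop) fun s hs => ?_
  have h1 : σ / 2 < s.re := hs
  show σ < (2 * s).re
  simp only [Complex.mul_re, Complex.re_ofNat, Complex.im_ofNat, zero_mul, sub_zero]
  linarith

theorem extend2 [Countable ι] (hL : ∀ i, 0 ≤ L i) {s₁ : ℝ}
    (h1 : ∀ t, 2 < t → Summable fun i => |d i| * Real.exp (-(t * L i)))
    (hneg : ∀ t, s₁ < t → Summable fun i => |min (d i) 0| * Real.exp (-(t * L i))) {U V : ℂ → ℂ}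
    (hU : DifferentiableOn ℂ U {s | s₁ < s.re}) (hV : DifferentiableOn ℂ V {s | s₁ < s.re})
    (hV0 : ∀ t : ℝ, s₁ < t → V t ≠ 0)
    (hid : ∀ s : ℂ, 2 < s.re → Complex.exp (DS d L s) * V s = U s) :
    ∀ t, s₁ < t → Summable fun i => |d i| * Real.exp (-(t * L i)) := by
  intro t ht
  have key := extend (d := d) (L := fun i => 2 * L i) (fun i => mul_nonneg zero_le_two (hL i)) (s₁ := s₁ / 2)
    (fun t ht => ?_) (fun t ht => ?_) (diff_scale hU) (diff_scale hV) (fun t ht => ?_) (fun s hs => ?_) (t / 2)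
    (by linarith)
  · refine key.congr fun i => ?_
    rw [exp_scale]
    congr 4
    ring
  · simp_rw [exp_scale]
    exact h1 (2 * t) (by linarith)
  · simp_rw [exp_scale]
    exact hneg (2 * t) (by linarith)
  · have := hV0 (2 * t) (by linarith)
    push_cast at this
    exact this
  · rw [DS_scale]
    refine hid _ ?_
    simp only [Complex.mul_re, Complex.re_ofNat, Complex.im_ofNat, zero_mul, sub_zero]
    linarith

theorem extend_id2 (hL : ∀ i, 0 ≤ L i) {σ : ℝ}
    (hs : ∀ t, σ < t → Summable fun i => |d i| * Real.exp (-(t * L i))) {U V : ℂ → ℂ}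
    (hU : DifferentiableOn ℂ U {s | σ < s.re}) (hV : DifferentiableOn ℂ V {s | σ < s.re})
    (hid : ∀ s : ℂ, 2 < s.re → Complex.exp (DS d L s) * V s = U s) (s : ℂ) (hσ : σ < s.re) :
    Complex.exp (DS d L s) * V s = U s := by
  have key := extend_id (d := d) (L := fun i => 2 * L i) (fun i => mul_nonneg zero_le_two (hL i)) (σ := σ / 2)
    (fun t ht => ?_) (diff_scale hU) (diff_scale hV) (fun s hs => ?_) (s / 2) ?_
  · rw [DS_scale] at key
    rwa [mul_div_cancel₀ _ (two_ne_zero)] at key
  · simp_rw [exp_scale]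
    exact hs (2 * t) (by linarith)
  · rw [DS_scale]
    refine hid _ ?_
    simp only [Complex.mul_re, Complex.re_ofNat, Complex.im_ofNat, zero_mul, sub_zero]
    linarith
  · rw [Complex.div_ofNat_re]
    linarith

end

end Pool.Agent.R398.AS
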