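import Mathlib
import Pool.Agent.R398.AS.Ext

/-! The quotient of the two Asai `L`-functions. -/

set_option autoImplicit false
set_option linter.unusedSectionVars false

namespace Pool.Agent.R398.AS

open NumberField IsDedekindDomain Pool.Agent.W189.TP Filter Topology

variable {K E : Type} [Field K] [NumberField K] [Field E] [NumberField E] [Algebra K E]
  {S : Finset (HeightOneSpectrum (𝓞 K))}

/-- the places of `K` outside `S` -/
abbrev PK (S : Finset (HeightOneSpectrum (𝓞 K))) := {v : HeightOneSpectrum (𝓞 K) // v ∉ S}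

/-- the parameters at an inert place -/
noncomputable def aw (α : HeightOneSpectrum (𝓞 E) → Fin 2 → ℂ) (v : IP E S) : Fin 2 → ℂ := α (up v.1 v.2.2)

theorem uni (α : HeightOneSpectrum (𝓞 E) → Fin 2 → ℂ) (h : CuspidalGL2 S α) (v : IP E S) : Uni (aw α v) :=
  h.unitary _ (above_out v)

/-- `log (N v)^{2 j + 1}` -/
noncomputable def LI (x : IP E S × ℕ) : ℝ := (2 * (x.2 : ℝ) + 1) * Real.log (Nm x.1.1)

/-- the coefficients of the logarithm of the quotient of the Asai `L`-functions -/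
noncomputable def dI (m : ℕ) (α : HeightOneSpectrum (𝓞 E) → Fin 2 → ℂ) (x : IP E S × ℕ) : ℝ :=
  2 * (tr m (aw α x.1) (2 * x.2 + 1)).re / (2 * (x.2 : ℝ) + 1)

theorem log_Nm_pos (v : HeightOneSpectrum (𝓞 K)) : 0 < Real.log (Nm v) :=
  Real.log_pos (lt_of_lt_of_le one_lt_two (two_le_Nm' v))

theorem LI_nonneg (x : IP E S × ℕ) : 0 ≤ LI x :=
  mul_nonneg (by positivity) (log_Nm_pos _).le

theorem cexp_LI (x : IP E S × ℕ) (s : ℂ) :
    Complex.exp (-(s * LI x)) = (((Nm x.1.1 : ℕ) : ℂ) ^ (-s)) ^ (2 * x.2 + 1) := by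
  have hp : ((Nm x.1.1 : ℕ) : ℂ) ≠ 0 := by
    have := two_le_Nm x.1.1
    exact_mod_cast (by omega : Nm x.1.1 ≠ 0)
  rw [Complex.cpow_def_of_ne_zero hp, ← Complex.exp_nat_mul]
  congr 1
  unfold LI
  push_cast
  ring

theorem rexp_LI (x : IP E S × ℕ) (σ : ℝ) :
    Real.exp (-(σ * LI x)) = ((Nm x.1.1 : ℝ) ^ (-σ)) ^ (2 * x.2 + 1) := by
  rw [Real.rpow_def_of_pos (Nm_pos x.1.1), ← Real.exp_nat_mul]
  congr 1
  unfold LI
  push_cast
  ring

/-- the embedding of the index sets -/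
def emb (x : IP E S × ℕ) : PK S × ℕ := (⟨x.1.1, x.1.2.1⟩, 2 * x.2)

theorem emb_injective : Function.Injective (emb (E := E) (S := S)) := by
  rintro ⟨v, j⟩ ⟨u, i⟩ h
  unfold emb at h
  simp only [Prod.mk.injEq, Subtype.mk.injEq] at h
  refine Prod.ext (Subtype.ext h.1) ?_
  show j = i
  omega

/-- one term of the logarithm of the Asai `L`-function -/
noncomputable def TT (m : ℕ) (α : HeightOneSpectrum (𝓞 E) → Fin 2 → ℂ) (ε : HeightOneSpectrum (𝓞 K) → ℂ) (s : ℂ)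
    (x : PK S × ℕ) : ℂ :=
  ε x.1.1 ^ (x.2 + 1) * asaiTr m α x.1.1 (x.2 + 1) / ((x.2 : ℂ) + 1) * (((Nm x.1.1 : ℕ) : ℂ) ^ (-s)) ^ (x.2 + 1)

theorem logAsai_eq (m : ℕ) (α : HeightOneSpectrum (𝓞 E) → Fin 2 → ℂ) (ε : HeightOneSpectrum (𝓞 K) → ℂ) (s : ℂ) :
    logAsai S m α ε s = ∑' x, TT (S := S) m α ε s x := rfl

theorem norm_eta (v : HeightOneSpectrum (𝓞 K)) : ‖eta E v‖ = 1 := by
  unfold eta
  split_ifs <;> simp

theorem norm_cpow_Nm (v : HeightOneSpectrum (𝓞 K)) (s : ℂ) : ‖((Nm v : ℕ) : ℂ) ^ (-s)‖ = (Nm v : ℝ) ^ (-s.re) := by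
  rw [Complex.norm_natCast_cpow_of_pos (by have := two_le_Nm v; omega), Complex.neg_re]

theorem norm_TT {m : ℕ} {α : HeightOneSpectrum (𝓞 E) → Fin 2 → ℂ} {ε : HeightOneSpectrum (𝓞 K) → ℂ}
    (hε : ∀ v, ‖ε v‖ = 1) (s : ℂ) (x : PK S × ℕ) :
    ‖TT m α ε s x‖ = ‖asaiTr m α x.1.1 (x.2 + 1)‖ / ((x.2 : ℝ) + 1) * ((Nm x.1.1 : ℝ) ^ (-s.re)) ^ (x.2 + 1) := by
  unfold TT
  rw [norm_mul, norm_div, norm_mul, norm_pow, hε, one_pow, one_mul, norm_pow, norm_cpow_Nm]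
  congr 2
  have : ((x.2 : ℂ) + 1) = (((x.2 : ℝ) + 1 : ℝ) : ℂ) := by push_cast; rfl
  rw [this, Complex.norm_real, Real.norm_of_nonneg (by positivity)]

theorem summable_TT {α : HeightOneSpectrum (𝓞 E) → Fin 2 → ℂ} (h : CuspidalGL2 S α) {m : ℕ} (hm : m = 1 ∨ m = 2)
    {ε : HeightOneSpectrum (𝓞 K) → ℂ} (hε : ∀ v, ‖ε v‖ = 1) {s : ℂ} (hs : 2 < s.re) :
    Summable (TT (S := S) m α ε s) := by
  refine Summable.of_norm ((h.summable m hm s.re hs).congr fun x => ?_)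
  rw [norm_TT hε]

theorem TT_sub_emb {α : HeightOneSpectrum (𝓞 E) → Fin 2 → ℂ} (h : CuspidalGL2 S α) {m : ℕ} (hm : m = 1 ∨ m = 2)
    (s : ℂ) (x : IP E S × ℕ) :
    TT m α 1 s (emb x) - TT m α (eta E) s (emb x) = (dI m α x : ℂ) * Complex.exp (-(s * LI x)) := by
  have h1 : (tr m (aw α x.1) (2 * x.2 + 1)) = ((tr m (aw α x.1) (2 * x.2 + 1)).re : ℂ) := by
    apply Complex.ext
    · simp
    · simp [tr_im (uni α h x.1) hm]
  have h2 : eta E x.1.1 = -1 := by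
    unfold eta
    rw [if_pos x.1.2.2]
  unfold TT emb dI
  rw [cexp_LI]
  simp only [Pi.one_apply, one_pow, one_mul]
  rw [h2, asaiTr_inert x.1.2.2]
  have h3 : ((-1 : ℂ)) ^ (2 * x.2 + 1) = -1 := by
    rw [pow_succ, pow_mul]; simp
  rw [h3]
  have h4 : tr m (α (up x.1.1 x.1.2.2)) (2 * x.2 + 1) = ((tr m (aw α x.1) (2 * x.2 + 1)).re : ℂ) := h1
  rw [h4]
  push_cast
  ring

theorem TT_sub_zero {α : HeightOneSpectrum (𝓞 E) → Fin 2 → ℂ} {m : ℕ} (s : ℂ) (x : PK S × ℕ)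
    (hx : x ∉ Set.range (emb (E := E) (S := S))) : TT m α 1 s x - TT m α (eta E) s x = 0 := by
  unfold TT
  simp only [Pi.one_apply, one_pow, one_mul]
  by_cases hi : Inert E x.1.1
  · have h2 : eta E x.1.1 = -1 := by
      unfold eta
      rw [if_pos hi]
    have h3 : ¬ Even x.2 := by
      rintro ⟨j, hj⟩
      apply hx
      refine ⟨(⟨x.1.1, x.1.2, hi⟩, j), ?_⟩
      unfold emb
      refine Prod.ext rfl ?_
      show 2 * j = x.2
      omega
    have h4 : Even (x.2 + 1) := by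
      rw [Nat.even_add_one]
      exact h3
    rw [h2, h4.neg_one_pow]
    ring
  · have h2 : eta E x.1.1 = 1 := by
      unfold eta
      rw [if_neg hi]
    rw [h2]
    ring

theorem quot_id {α : HeightOneSpectrum (𝓞 E) → Fin 2 → ℂ} (h : CuspidalGL2 S α) {m : ℕ} (hm : m = 1 ∨ m = 2)
    {s : ℂ} (hs : 2 < s.re) :
    Complex.exp (DS (dI (S := S) m α) LI s) * Complex.exp (logAsai S m α (eta E) s) =
      Complex.exp (logAsai S m α 1 s) := by
  rw [← Complex.exp_add]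
  congr 1
  have h1 := summable_TT h hm (ε := 1) (fun v => by simp) hs
  have h2 := summable_TT h hm (ε := eta E) (fun v => norm_eta v) hs
  have h3 : logAsai S m α 1 s - logAsai S m α (eta E) s = DS (dI (S := S) m α) LI s := by
    rw [logAsai_eq, logAsai_eq, ← Summable.tsum_sub h1 h2]
    unfold DS
    rw [← (emb_injective (E := E) (S := S)).tsum_eq (f := fun x => TT m α 1 s x - TT m α (eta E) s x)]
    · exact tsum_congr fun x => TT_sub_emb h hm s x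
    · intro x hx
      by_contra hc
      exact hx (TT_sub_zero s x hc)
  rw [← h3]
  ring

theorem abs_dI_le {α : HeightOneSpectrum (𝓞 E) → Fin 2 → ℂ} (m : ℕ) (x : IP E S × ℕ) :
    |dI m α x| ≤ 2 * (‖tr m (aw α x.1) (2 * x.2 + 1)‖ / (2 * (x.2 : ℝ) + 1)) := by
  unfold dI
  rw [abs_div, abs_mul, abs_two, abs_of_pos (by positivity : (0 : ℝ) < 2 * (x.2 : ℝ) + 1), mul_div_assoc]
  gcongr
  exact Complex.abs_re_le_norm _

theorem summable_dI {α : HeightOneSpectrum (𝓞 E) → Fin 2 → ℂ} (h : CuspidalGL2 S α) {m : ℕ} (hm : m = 1 ∨ m = 2)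
    {t : ℝ} (ht : 2 < t) : Summable fun x : IP E S × ℕ => |dI m α x| * Real.exp (-(t * LI x)) := by
  have h1 := ((h.summable m hm t ht).comp_injective (emb_injective (E := E) (S := S))).mul_left 2
  refine Summable.of_nonneg_of_le (fun x => by positivity) (fun x => ?_) h1
  simp only [Function.comp_apply]
  rw [rexp_LI, ← mul_assoc]
  have h2 := abs_dI_le (α := α) m x
  have h3 : (emb x).1.1 = x.1.1 := rfl
  have h4 : (emb x).2 = 2 * x.2 := rfl
  rw [h3, h4, asaiTr_inert x.1.2.2]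
  push_cast
  refine mul_le_mul_of_nonneg_right h2 ?_
  have := (Nm_pos x.1.1).le
  positivity

end Pool.Agent.R398.AS
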