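import Mathlib
import Pool.Agent.R398.AS.Diff

/-! The terms with `k ≥ 3`. -/

set_option autoImplicit false
set_option linter.unusedSectionVars false

namespace Pool.Agent.R398.AS

open NumberField IsDedekindDomain Pool.Agent.W189.TP Filter Topology

variable {K E : Type} [Field K] [NumberField K] [Field E] [NumberField E] [Algebra K E]
  {S : Finset (HeightOneSpectrum (𝓞 K))}

theorem summable_IP {σ : ℝ} (hσ : 1 < σ) : Summable fun v : IP E S => (Nm v.1 : ℝ) ^ (-σ) :=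
  (summable_Nm (K := K) hσ).comp_injective Subtype.val_injective

theorem summable_RS {α : HeightOneSpectrum (𝓞 E) → Fin 2 → ℂ} (h : CuspidalGL2 S α)
    (h2 : Module.finrank K E = 2) :
    Summable fun v : IP E S => (1 + ‖tr 2 (aw α v) 1‖ ^ 2) * (Nm v.1 : ℝ) ^ (-(17 / 8) : ℝ) := by
  have h1 := summable_IP (E := E) (S := S) (σ := 17 / 8) (by norm_num)
  have h3 := (h.rankinSelberg (17 / 16) (by norm_num)).comp_injective
    (i := fun v : IP E S => (⟨up v.1 v.2.2, above_out v⟩ : {w : HeightOneSpectrum (𝓞 E) // ∀ v ∈ S, ¬ Above v w}))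
    (fun v u hvu => up_injective (congrArg Subtype.val hvu))
  refine (h1.add h3).congr fun v => ?_
  simp only [Function.comp_apply]
  rw [add_mul, one_mul, Nm_up h2]
  congr 2
  push_cast
  rw [← Real.rpow_natCast, ← Real.rpow_mul (Nm_pos v.1).le]
  norm_num

theorem MM_bound {α : HeightOneSpectrum (𝓞 E) → Fin 2 → ℂ} (h : CuspidalGL2 S α)
    (h2 : Module.finrank K E = 2) (v : IP E S) : MM (aw α v) ≤ (Nm v.1 : ℝ) ^ (7 / 16 : ℝ) := by
  have h3 := h.bound _ (above_out v)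
  rw [Nm_up h2] at h3
  have h4 : (1 : ℝ) ≤ ((Nm v.1 ^ 2 : ℕ) : ℝ) ^ (7 / 64 : ℝ) := by
    refine Real.one_le_rpow ?_ (by norm_num)
    have := two_le_Nm' v.1
    push_cast
    nlinarith
  refine (MM_le (uni α h v) h4 h3).trans (le_of_eq ?_)
  push_cast
  rw [← Real.rpow_natCast, ← Real.rpow_natCast, ← Real.rpow_mul (Nm_pos v.1).le, ← Real.rpow_mul (Nm_pos v.1).le]
  norm_num

theorem tail_one {α : HeightOneSpectrum (𝓞 E) → Fin 2 → ℂ} (h : CuspidalGL2 S α) (h2 : Module.finrank K E = 2)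
    {m : ℕ} (hm : m = 1 ∨ m = 2) :
    Summable fun x : IP E S × ℕ => |dI m α (x.1, x.2 + 1)| * Real.exp (-(1 * LI (x.1, x.2 + 1))) := by
  have hg : Summable fun j : ℕ => ((2 : ℝ) ^ (-(1 / 4) : ℝ)) ^ j :=
    summable_geometric_of_lt_one (by positivity) (Real.rpow_lt_one_of_one_lt_of_neg (by norm_num) (by norm_num))
  have hp := (summable_RS h h2).mul_of_nonneg hg (fun v => by have := (Nm_pos v.1).le; positivity)
    (fun j => by positivity)
  refine Summable.of_nonneg_of_le (fun x => by positivity) (fun x => ?_) (hp.mul_left 10)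
  obtain ⟨v, j⟩ := x
  simp only
  have hN := Nm_pos v.1
  have hN2 := two_le_Nm' v.1
  have hU := uni α h v
  have e1 : |dI m α (v, j + 1)| ≤ 10 * MM (aw α v) ^ (4 * j + 6) := by
    refine (abs_dI_le (α := α) m (v, j + 1)).trans ?_
    simp only
    have h3 := norm_tr_le hU hm (2 * (j + 1) + 1)
    have h4 : (1 : ℝ) ≤ 2 * ((j + 1 : ℕ) : ℝ) + 1 := by
      have : (0 : ℝ) ≤ ((j + 1 : ℕ) : ℝ) := Nat.cast_nonneg _
      linarith
    have h5 : ‖tr m (aw α v) (2 * (j + 1) + 1)‖ / (2 * ((j + 1 : ℕ) : ℝ) + 1) ≤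
        ‖tr m (aw α v) (2 * (j + 1) + 1)‖ := div_le_self (norm_nonneg _) h4
    have h6 : 2 * (2 * (j + 1) + 1) = 4 * j + 6 := by ring
    rw [h6] at h3
    linarith
  have e2 : MM (aw α v) ^ (4 * j + 6) ≤ (1 + ‖tr 2 (aw α v) 1‖ ^ 2) * ((Nm v.1 : ℝ) ^ (7 / 16 : ℝ)) ^ (4 * j + 2) := by
    have h3 := MM_four hU
    have h4 := MM_bound h h2 v
    have h5 : 0 ≤ MM (aw α v) := zero_le_one.trans (one_le_MM hU.1)
    calc MM (aw α v) ^ (4 * j + 6) = MM (aw α v) ^ 4 * MM (aw α v) ^ (4 * j + 2) := by ring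
      _ ≤ _ := mul_le_mul h3 (pow_le_pow_left₀ h5 h4 _) (by positivity) (by positivity)
  have e3 : Real.exp (-(1 * LI (v, j + 1))) = (Nm v.1 : ℝ) ^ (-(2 * (j : ℝ) + 3)) := by
    rw [rexp_LI]
    rw [← Real.rpow_natCast, ← Real.rpow_mul hN.le]
    congr 1
    push_cast
    ring
  have e4 : ((Nm v.1 : ℝ) ^ (7 / 16 : ℝ)) ^ (4 * j + 2) * (Nm v.1 : ℝ) ^ (-(2 * (j : ℝ) + 3)) ≤
      (Nm v.1 : ℝ) ^ (-(17 / 8) : ℝ) * ((2 : ℝ) ^ (-(1 / 4) : ℝ)) ^ j := by
    have h3 : ((Nm v.1 : ℝ) ^ (7 / 16 : ℝ)) ^ (4 * j + 2) * (Nm v.1 : ℝ) ^ (-(2 * (j : ℝ) + 3)) =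
        (Nm v.1 : ℝ) ^ (-(17 / 8) : ℝ) * ((Nm v.1 : ℝ) ^ (-(1 / 4) : ℝ)) ^ j := by
      rw [← Real.rpow_natCast, ← Real.rpow_natCast, ← Real.rpow_mul hN.le, ← Real.rpow_mul hN.le,
        ← Real.rpow_add hN, ← Real.rpow_add hN]
      congr 1
      push_cast
      ring
    rw [h3]
    refine mul_le_mul_of_nonneg_left (pow_le_pow_left₀ (by positivity) ?_ _) (by positivity)
    exact Real.rpow_le_rpow_of_nonpos (by norm_num) hN2 (by norm_num)
  calc |dI m α (v, j + 1)| * Real.exp (-(1 * LI (v, j + 1)))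
      ≤ (10 * ((1 + ‖tr 2 (aw α v) 1‖ ^ 2) * ((Nm v.1 : ℝ) ^ (7 / 16 : ℝ)) ^ (4 * j + 2))) *
        (Nm v.1 : ℝ) ^ (-(2 * (j : ℝ) + 3)) := by
        rw [e3]
        refine mul_le_mul_of_nonneg_right ?_ (by positivity)
        linarith
    _ = 10 * ((1 + ‖tr 2 (aw α v) 1‖ ^ 2) * (((Nm v.1 : ℝ) ^ (7 / 16 : ℝ)) ^ (4 * j + 2) *
        (Nm v.1 : ℝ) ^ (-(2 * (j : ℝ) + 3)))) := by ring
    _ ≤ 10 * ((1 + ‖tr 2 (aw α v) 1‖ ^ 2) * ((Nm v.1 : ℝ) ^ (-(17 / 8) : ℝ) * ((2 : ℝ) ^ (-(1 / 4) : ℝ)) ^ j)) := by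
        gcongr
    _ = _ := by ring

theorem tail {α : HeightOneSpectrum (𝓞 E) → Fin 2 → ℂ} (h : CuspidalGL2 S α) (h2 : Module.finrank K E = 2)
    {m : ℕ} (hm : m = 1 ∨ m = 2) {t : ℝ} (ht : 1 ≤ t) :
    Summable fun x : IP E S × ℕ => |dI m α (x.1, x.2 + 1)| * Real.exp (-(t * LI (x.1, x.2 + 1))) := by
  refine Summable.of_nonneg_of_le (fun x => by positivity) (fun x => ?_) (tail_one h h2 hm)
  refine mul_le_mul_of_nonneg_left (Real.exp_le_exp.2 ?_) (abs_nonneg _)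
  have := LI_nonneg (x.1, x.2 + 1)
  nlinarith

/-- summability over `ℕ` in the second variable from the terms `0` and the terms `j + 1` -/
theorem summable_split {I : Type*} {f : I × ℕ → ℝ} (h0 : Summable fun v : I => f (v, 0))
    (h1 : Summable fun x : I × ℕ => f (x.1, x.2 + 1)) : Summable f := by
  set g0 : I × ℕ → ℝ := fun x => if x.2 = 0 then f x else 0 with hg0
  set g1 : I × ℕ → ℝ := fun x => if x.2 = 0 then 0 else f x with hg1
  have e0 : Summable g0 := by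
    have hinj : Function.Injective fun v : I => ((v, 0) : I × ℕ) := fun a b hab => (Prod.mk.inj hab).1
    refine (hinj.summable_iff ?_).1 ?_
    · rintro ⟨v, j⟩ hx
      rw [hg0]
      simp only
      rw [if_neg]
      rintro rfl
      exact hx ⟨v, rfl⟩
    · refine h0.congr fun v => ?_
      simp [hg0]
  have e1 : Summable g1 := by
    have hinj : Function.Injective fun x : I × ℕ => ((x.1, x.2 + 1) : I × ℕ) := by
      rintro ⟨a, i⟩ ⟨b, j⟩ hab
      simp only [Prod.mk.injEq] at hab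
      exact Prod.ext hab.1 (by simpa using hab.2)
    refine (hinj.summable_iff ?_).1 ?_
    · rintro ⟨v, j⟩ hx
      rw [hg1]
      simp only
      rw [if_pos]
      by_contra hj
      apply hx
      refine ⟨(v, j - 1), ?_⟩
      simp only [Prod.mk.injEq, true_and]
      omega
    · refine h1.congr fun v => ?_
      simp [hg1]
  refine (e0.add e1).congr fun x => ?_
  simp only [hg0, hg1]
  split_ifs <;> simp

theorem dI_zero_one {α : HeightOneSpectrum (𝓞 E) → Fin 2 → ℂ} (h : CuspidalGL2 S α) (v : IP E S) :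
    dI 1 α (v, 0) = 2 * (zz (aw α v) - 1) := by
  unfold dI
  simp only [mul_zero, zero_add]
  rw [tr_one_one (uni α h v), Complex.ofReal_re]
  norm_num

theorem dI_zero_two {α : HeightOneSpectrum (𝓞 E) → Fin 2 → ℂ} (h : CuspidalGL2 S α) (v : IP E S) :
    dI 2 α (v, 0) = 2 * (zz (aw α v) ^ 2 - 3 * zz (aw α v) + 1) := by
  unfold dI
  simp only [mul_zero, zero_add]
  rw [tr_two_one (uni α h v), Complex.ofReal_re]
  norm_num

theorem LI_zero (v : IP E S) : LI (v, 0) = Real.log (Nm v.1) := by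
  unfold LI
  simp

theorem rexp_LI_zero (v : IP E S) (t : ℝ) : Real.exp (-(t * LI (v, 0))) = (Nm v.1 : ℝ) ^ (-t) := by
  rw [rexp_LI]
  simp

end Pool.Agent.R398.AS
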