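import Mathlib
import Pool.Agent.R398.AS.Tail

/-! The moments of the Hecke eigenvalues at the inert places. -/

set_option autoImplicit false
set_option linter.unusedSectionVars false

namespace Pool.Agent.R398.AS

open NumberField IsDedekindDomain Pool.Agent.W189.TP Filter Topology

variable {K E : Type} [Field K] [NumberField K] [Field E] [NumberField E] [Algebra K E]
  {S : Finset (HeightOneSpectrum (𝓞 K))}

instance : Countable (IP E S) := by
  have := countable_places (K := K)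
  infer_instance

/-- the combination of the coefficients -/
noncomputable def DD (α : HeightOneSpectrum (𝓞 E) → Fin 2 → ℂ) (x : IP E S × ℕ) : ℝ :=
  5 * dI 1 α x + 3 * dI 2 α x

theorem abs_DD_le (α : HeightOneSpectrum (𝓞 E) → Fin 2 → ℂ) (x : IP E S × ℕ) :
    |DD α x| ≤ 5 * |dI 1 α x| + 3 * |dI 2 α x| := by
  unfold DD
  refine (abs_add_le _ _).trans ?_
  rw [abs_mul, abs_mul]
  norm_num

theorem DD_zero {α : HeightOneSpectrum (𝓞 E) → Fin 2 → ℂ} (h : CuspidalGL2 S α) (v : IP E S) :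
    DD α (v, 0) = 6 * zz (aw α v) ^ 2 - 8 * zz (aw α v) - 4 := by
  unfold DD
  rw [dI_zero_one h, dI_zero_two h]
  ring

theorem summable_DD {α : HeightOneSpectrum (𝓞 E) → Fin 2 → ℂ} (h : CuspidalGL2 S α)
    (h2 : Module.finrank K E = 2) {t : ℝ} (ht : 1 < t) :
    Summable fun x : IP E S × ℕ => |DD α x| * Real.exp (-(t * LI x)) := by
  obtain ⟨F1p, hF1p, hn1p, he1p⟩ := h.asai 1 (Or.inl rfl) 1 (Or.inl rfl)
  obtain ⟨F1m, hF1m, hn1m, he1m⟩ := h.asai 1 (Or.inl rfl) (eta E) (Or.inr rfl)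
  obtain ⟨F2p, hF2p, hn2p, he2p⟩ := h.asai 2 (Or.inr rfl) 1 (Or.inl rfl)
  obtain ⟨F2m, hF2m, hn2m, he2m⟩ := h.asai 2 (Or.inr rfl) (eta E) (Or.inr rfl)
  have hsub : {s : ℂ | 1 < s.re} ⊆ {s : ℂ | 1 / 2 < s.re} := fun s hs => by
    have : 1 < s.re := hs
    show 1 / 2 < s.re
    linarith
  refine extend2 (d := DD α) (L := LI) LI_nonneg (s₁ := 1) (fun t ht => ?_) (fun t ht => ?_)
    (U := fun s => F1p s ^ 5 * F2p s ^ 3) (V := fun s => F1m s ^ 5 * F2m s ^ 3)
    (((hF1p.mono hsub).pow 5).mul ((hF2p.mono hsub).pow 3))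
    (((hF1m.mono hsub).pow 5).mul ((hF2m.mono hsub).pow 3)) (fun t ht => ?_) (fun s hs => ?_) t ht
  · refine Summable.of_nonneg_of_le (fun x => by positivity) (fun x => ?_)
      (((summable_dI h (Or.inl rfl) ht).mul_left 5).add ((summable_dI h (Or.inr rfl) ht).mul_left 3))
    rw [← mul_assoc, ← mul_assoc, ← add_mul]
    exact mul_le_mul_of_nonneg_right (abs_DD_le α x) (Real.exp_pos _).le
  · refine summable_split ?_ ?_
    · refine Summable.of_nonneg_of_le (fun v => by positivity) (fun v => ?_)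
        ((summable_IP (E := E) (S := S) ht).mul_left (20 / 3))
      rw [rexp_LI_zero, DD_zero h]
      refine mul_le_mul_of_nonneg_right ?_ (by have := (Nm_pos v.1).le; positivity)
      rw [abs_le]
      constructor
      · refine le_min ?_ (by norm_num)
        nlinarith [sq_nonneg (zz (aw α v) - 2 / 3)]
      · exact (min_le_right _ _).trans (by norm_num)
    · refine Summable.of_nonneg_of_le (fun x => by positivity) (fun x => ?_)
        (((tail h h2 (Or.inl rfl) ht.le).mul_left 5).add ((tail h h2 (Or.inr rfl) ht.le).mul_left 3))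
      rw [← mul_assoc, ← mul_assoc, ← add_mul]
      refine mul_le_mul_of_nonneg_right (le_trans ?_ (abs_DD_le α _)) (Real.exp_pos _).le
      rw [abs_le]
      constructor
      · exact le_min (neg_abs_le _) (by simp)
      · exact (min_le_right _ _).trans (abs_nonneg _)
  · refine mul_ne_zero (pow_ne_zero _ (hn1m _ ?_)) (pow_ne_zero _ (hn2m _ ?_))
    · rw [Complex.ofReal_re]; exact ht.le
    · rw [Complex.ofReal_re]; exact ht.le
  · have e1 := quot_id h (Or.inl rfl) hs
    have e2 := quot_id h (Or.inr rfl) hs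
    rw [← he1p s hs, ← he1m s hs] at e1
    rw [← he2p s hs, ← he2m s hs] at e2
    have hs1 := summ_cplx (σ := s.re) LI_nonneg le_rfl (summable_dI h (Or.inl rfl) hs)
    have hs2 := summ_cplx (σ := s.re) LI_nonneg le_rfl (summable_dI h (Or.inr rfl) hs)
    have e3 : DS (DD (S := S) α) LI s = 5 * DS (dI (S := S) 1 α) LI s + 3 * DS (dI (S := S) 2 α) LI s := by
      unfold DS
      rw [← tsum_mul_left, ← tsum_mul_left, ← (hs1.mul_left 5).tsum_add (hs2.mul_left 3)]
      refine tsum_congr fun x => ?_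
      unfold DD
      push_cast
      ring
    rw [e3, Complex.exp_add, ← e1, ← e2, mul_pow, mul_pow, ← Complex.exp_nat_mul, ← Complex.exp_nat_mul]
    push_cast
    ring

theorem summable_zz {α : HeightOneSpectrum (𝓞 E) → Fin 2 → ℂ} (h : CuspidalGL2 S α)
    (h2 : Module.finrank K E = 2) {t : ℝ} (ht : 1 < t) :
    Summable fun v : IP E S => zz (aw α v) ^ 2 * (Nm v.1 : ℝ) ^ (-t) := by
  have hinj : Function.Injective fun v : IP E S => ((v, 0) : IP E S × ℕ) := fun a b hab => (Prod.mk.inj hab).1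
  have h3 := (summable_DD h h2 ht).comp_injective hinj
  refine Summable.of_nonneg_of_le (fun v => by have := (Nm_pos v.1).le; positivity) (fun v => ?_)
    (h3.add ((summable_IP (E := E) (S := S) ht).mul_left 8))
  simp only [Function.comp_apply]
  rw [rexp_LI_zero, ← add_mul]
  refine mul_le_mul_of_nonneg_right ?_ (by have := (Nm_pos v.1).le; positivity)
  have h4 := le_abs_self (DD α (v, 0))
  rw [DD_zero h] at h4
  rw [DD_zero h]
  nlinarith [sq_nonneg (zz (aw α v) - 4 / 5)]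

theorem abs_dI_zero_le {α : HeightOneSpectrum (𝓞 E) → Fin 2 → ℂ} (h : CuspidalGL2 S α) {m : ℕ}
    (hm : m = 1 ∨ m = 2) (v : IP E S) : |dI m α (v, 0)| ≤ 16 * (1 + zz (aw α v) ^ 2) := by
  have hz := zz_nonneg (aw α v)
  rcases hm with rfl | rfl
  · rw [dI_zero_one h, abs_le]
    constructor <;> nlinarith [sq_nonneg (zz (aw α v) - 1)]
  · rw [dI_zero_two h, abs_le]
    constructor <;> nlinarith [sq_nonneg (zz (aw α v) - 1)]

theorem summable_zero {α : HeightOneSpectrum (𝓞 E) → Fin 2 → ℂ} (h : CuspidalGL2 S α)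
    (h2 : Module.finrank K E = 2) {m : ℕ} (hm : m = 1 ∨ m = 2) {t : ℝ} (ht : 1 < t) :
    Summable fun v : IP E S => |dI m α (v, 0)| * (Nm v.1 : ℝ) ^ (-t) := by
  refine Summable.of_nonneg_of_le (fun v => by have := (Nm_pos v.1).le; positivity) (fun v => ?_)
    (((summable_IP (E := E) (S := S) ht).add (summable_zz h h2 ht)).mul_left 16)
  have h3 := abs_dI_zero_le h hm v
  have h4 : (0 : ℝ) ≤ (Nm v.1 : ℝ) ^ (-t) := by have := (Nm_pos v.1).le; positivity
  nlinarith

theorem summable_dI' {α : HeightOneSpectrum (𝓞 E) → Fin 2 → ℂ} (h : CuspidalGL2 S α)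
    (h2 : Module.finrank K E = 2) {m : ℕ} (hm : m = 1 ∨ m = 2) {t : ℝ} (ht : 1 < t) :
    Summable fun x : IP E S × ℕ => |dI m α x| * Real.exp (-(t * LI x)) := by
  refine summable_split ?_ (tail h h2 hm ht.le)
  refine (summable_zero h h2 hm ht).congr fun v => ?_
  rw [rexp_LI_zero]

/-- splitting off the terms `j = 0` -/
theorem tsum_split {I : Type*} {f : I × ℕ → ℝ} (hf : Summable f) :
    ∑' x, f x = (∑' v, f (v, 0)) + ∑' x : I × ℕ, f (x.1, x.2 + 1) := by
  have hinj0 : Function.Injective fun v : I => ((v, 0) : I × ℕ) := fun a b hab => (Prod.mk.inj hab).1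
  have hinj1 : Function.Injective fun x : I × ℕ => ((x.1, x.2 + 1) : I × ℕ) := by
    rintro ⟨a, i⟩ ⟨b, j⟩ hab
    simp only [Prod.mk.injEq] at hab
    exact Prod.ext hab.1 (by simpa using hab.2)
  have h0 : Summable fun v : I => f (v, 0) := hf.comp_injective hinj0
  have h1 : Summable fun x : I × ℕ => f (x.1, x.2 + 1) := hf.comp_injective hinj1
  rw [hf.tsum_prod, h1.tsum_prod, ← h0.tsum_add]
  · refine tsum_congr fun v => ?_
    exact (hf.prod_factor v).tsum_eq_zero_add
  · exact h1.prod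

theorem bounded {α : HeightOneSpectrum (𝓞 E) → Fin 2 → ℂ} (h : CuspidalGL2 S α)
    (h2 : Module.finrank K E = 2) {m : ℕ} (hm : m = 1 ∨ m = 2) :
    ∃ C : ℝ, ∀ t : ℝ, 1 < t → |∑' v : IP E S, dI m α (v, 0) * (Nm v.1 : ℝ) ^ (-t)| ≤ C := by
  obtain ⟨Fp, hFp, hnp, hep⟩ := h.asai m hm 1 (Or.inl rfl)
  obtain ⟨Fm, hFm, hnm, hem⟩ := h.asai m hm (eta E) (Or.inr rfl)
  have hsub : {s : ℂ | 1 < s.re} ⊆ {s : ℂ | 1 / 2 < s.re} := fun s hs => by
    have : 1 < s.re := hs
    show 1 / 2 < s.re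
    linarith
  -- the continuous bound on `[1, 2]`
  have hop : IsOpen {s : ℂ | 1 / 2 < s.re} := isOpen_lt continuous_const Complex.continuous_re
  have hc : ∀ F : ℂ → ℂ, DifferentiableOn ℂ F {s | 1 / 2 < s.re} → (∀ s : ℂ, 1 ≤ s.re → F s ≠ 0) →
      ContinuousOn (fun t : ℝ => Real.log ‖F t‖) (Set.Icc 1 2) := by
    intro F hF hn t ht
    have h3 : ContinuousAt F (t : ℂ) := (hF.differentiableAt (hop.mem_nhds (by
      show (1 / 2 : ℝ) < (t : ℂ).re
      rw [Complex.ofReal_re]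
      linarith [ht.1]))).continuousAt
    have h4 : ContinuousAt (fun t : ℝ => F t) t := ContinuousAt.comp (f := fun t : ℝ => (t : ℂ)) h3
      Complex.continuous_ofReal.continuousAt
    refine (h4.norm.log ?_).continuousWithinAt
    rw [norm_ne_zero_iff]
    exact hn _ (by rw [Complex.ofReal_re]; exact ht.1)
  have hcc : ContinuousOn (fun t : ℝ => |Real.log ‖Fp t‖| + |Real.log ‖Fm t‖|) (Set.Icc 1 2) :=
    (hc Fp hFp hnp).abs.add (hc Fm hFm hnm).abs
  obtain ⟨C1, hC1⟩ := isCompact_Icc.bddAbove_image hcc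
  set B1 := ∑' x : IP E S × ℕ, |dI m α (x.1, x.2 + 1)| * Real.exp (-(1 * LI (x.1, x.2 + 1))) with hB1
  set B2 := ∑' v : IP E S, |dI m α (v, 0)| * (Nm v.1 : ℝ) ^ (-2 : ℝ) with hB2
  have hB10 : 0 ≤ B1 := tsum_nonneg fun x => by positivity
  have hB20 : 0 ≤ B2 := tsum_nonneg fun v => by have := (Nm_pos v.1).le; positivity
  have hC10 : 0 ≤ C1 := by
    have h5 : |Real.log ‖Fp (1 : ℝ)‖| + |Real.log ‖Fm (1 : ℝ)‖| ≤ C1 :=
      hC1 ⟨1, Set.left_mem_Icc.2 one_le_two, rfl⟩
    exact le_trans (by positivity) h5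
  refine ⟨C1 + B1 + B2, fun t ht => ?_⟩
  rcases le_total t 2 with ht2 | ht2
  · have hsum := summable_dI' h h2 hm ht
    have hid := extend_id2 (d := dI (S := S) m α) (L := LI) LI_nonneg (σ := 1)
      (fun t ht => summable_dI' h h2 hm ht) (hFp.mono hsub) (hFm.mono hsub) (fun s hs => by
        rw [hep s hs, hem s hs]
        exact quot_id h hm hs) t (by rw [Complex.ofReal_re]; exact ht)
    rw [DS_real] at hid
    have hre : Summable fun x : IP E S × ℕ => dI m α x * Real.exp (-(t * LI x)) := by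
      refine Summable.of_norm (hsum.congr fun x => ?_)
      rw [Real.norm_eq_abs, abs_mul, abs_of_pos (Real.exp_pos _)]
    have hn1 : Fm t ≠ 0 := hnm _ (by rw [Complex.ofReal_re]; exact ht.le)
    have h3 : ∑' x : IP E S × ℕ, dI m α x * Real.exp (-(t * LI x)) = Real.log ‖Fp t‖ - Real.log ‖Fm t‖ := by
      rw [← hid, norm_mul, Real.log_mul (by simp) (norm_ne_zero_iff.2 hn1), Complex.norm_exp,
        Complex.ofReal_re, Real.log_exp]
      ring
    rw [tsum_split hre] at h3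
    have h4 : |∑' x : IP E S × ℕ, dI m α (x.1, x.2 + 1) * Real.exp (-(t * LI (x.1, x.2 + 1)))| ≤ B1 := by
      have h5 := tail_one h h2 hm
      rw [← Real.norm_eq_abs]
      refine tsum_of_norm_bounded h5.hasSum fun x => ?_
      rw [norm_mul, Real.norm_eq_abs, Real.norm_of_nonneg (Real.exp_pos _).le]
      refine mul_le_mul_of_nonneg_left (Real.exp_le_exp.2 ?_) (abs_nonneg _)
      have := LI_nonneg (x.1, x.2 + 1)
      nlinarith
    have h5 : |Real.log ‖Fp t‖| + |Real.log ‖Fm t‖| ≤ C1 := hC1 ⟨t, ⟨ht.le, ht2⟩, rfl⟩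
    have h6 : ∑' v : IP E S, dI m α (v, 0) * (Nm v.1 : ℝ) ^ (-t) =
        ∑' v : IP E S, dI m α (v, 0) * Real.exp (-(t * LI (v, 0))) :=
      tsum_congr fun v => by rw [rexp_LI_zero]
    rw [h6]
    have h7 := abs_le.1 h4
    have h8 := abs_le.1 (le_refl |Real.log ‖Fp t‖|)
    have h9 := abs_le.1 (le_refl |Real.log ‖Fm t‖|)
    rw [abs_le]
    constructor <;> linarith [h7.1, h7.2, h8.1, h8.2, h9.1, h9.2]
  · have h3 : |∑' v : IP E S, dI m α (v, 0) * (Nm v.1 : ℝ) ^ (-t)| ≤ B2 := by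
      rw [← Real.norm_eq_abs]
      refine tsum_of_norm_bounded (summable_zero h h2 hm (by norm_num : (1 : ℝ) < 2)).hasSum fun v => ?_
      have hN : (1 : ℝ) ≤ Nm v.1 := (one_le_two).trans (two_le_Nm' v.1)
      rw [norm_mul, Real.norm_eq_abs, Real.norm_of_nonneg (by positivity)]
      refine mul_le_mul_of_nonneg_left ?_ (abs_nonneg _)
      exact Real.rpow_le_rpow_of_exponent_le hN (by linarith)
    linarith

end Pool.Agent.R398.AS
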