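import Mathlib
import Pool.Agent.R398.AS.Main

/-! The final statements. -/

set_option autoImplicit false
set_option linter.unusedSectionVars false

namespace Pool.Agent.R398.AS

open NumberField IsDedekindDomain Filter Topology

variable {K E : Type} [Field K] [NumberField K] [Field E] [NumberField E] [Algebra K E]
  {S : Finset (HeightOneSpectrum (𝓞 K))}

theorem rp_nonneg (v : IP E S) (t : ℝ) : 0 ≤ (Nm v.1 : ℝ) ^ (-t) := by
  have := (Nm_pos v.1).le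
  positivity

theorem summable_zz1 {α : HeightOneSpectrum (𝓞 E) → Fin 2 → ℂ} (h : CuspidalGL2 S α)
    (h2 : Module.finrank K E = 2) {t : ℝ} (ht : 1 < t) :
    Summable fun v : IP E S => zz (aw α v) * (Nm v.1 : ℝ) ^ (-t) := by
  refine Summable.of_nonneg_of_le (fun v => mul_nonneg (zz_nonneg _) (rp_nonneg v t)) (fun v => ?_)
    ((summable_IP (E := E) (S := S) ht).add (summable_zz h h2 ht))
  have h3 := rp_nonneg v t
  have h4 : zz (aw α v) ≤ 1 + zz (aw α v) ^ 2 := by nlinarith [sq_nonneg (zz (aw α v) - 1 / 2)]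
  nlinarith

theorem mean_one {α : HeightOneSpectrum (𝓞 E) → Fin 2 → ℂ} (h : CuspidalGL2 S α)
    (h2 : Module.finrank K E = 2) :
    ∃ C : ℝ, ∀ t : ℝ, 1 < t → |∑' v : IP E S, (zz (aw α v) - 1) * (Nm v.1 : ℝ) ^ (-t)| ≤ C := by
  obtain ⟨C, hC⟩ := bounded h h2 (m := 1) (Or.inl rfl)
  refine ⟨C, fun t ht => ?_⟩
  have h3 := hC t ht
  have h4 : ∑' v : IP E S, dI 1 α (v, 0) * (Nm v.1 : ℝ) ^ (-t) =
      2 * ∑' v : IP E S, (zz (aw α v) - 1) * (Nm v.1 : ℝ) ^ (-t) := by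
    rw [← tsum_mul_left]
    refine tsum_congr fun v => ?_
    rw [dI_zero_one h]
    ring
  rw [h4, abs_mul, abs_two] at h3
  have := abs_nonneg (∑' v : IP E S, (zz (aw α v) - 1) * (Nm v.1 : ℝ) ^ (-t))
  linarith

theorem mean_two {α : HeightOneSpectrum (𝓞 E) → Fin 2 → ℂ} (h : CuspidalGL2 S α)
    (h2 : Module.finrank K E = 2) :
    ∃ C : ℝ, ∀ t : ℝ, 1 < t → |∑' v : IP E S, (zz (aw α v) ^ 2 - 2) * (Nm v.1 : ℝ) ^ (-t)| ≤ C := by
  obtain ⟨C1, hC1⟩ := mean_one h h2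
  obtain ⟨C2, hC2⟩ := bounded h h2 (m := 2) (Or.inr rfl)
  refine ⟨C2 + 3 * C1, fun t ht => ?_⟩
  have h3 := hC1 t ht
  have h4 := hC2 t ht
  have s0 := summable_IP (E := E) (S := S) ht
  have s1 := summable_zz1 h h2 ht
  have s2 := summable_zz h h2 ht
  have h5 : ∑' v : IP E S, (zz (aw α v) ^ 2 - 2) * (Nm v.1 : ℝ) ^ (-t) =
      1 / 2 * (∑' v : IP E S, dI 2 α (v, 0) * (Nm v.1 : ℝ) ^ (-t)) +
        3 * ∑' v : IP E S, (zz (aw α v) - 1) * (Nm v.1 : ℝ) ^ (-t) := by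
    rw [← tsum_mul_left, ← tsum_mul_left, ← Summable.tsum_add]
    · refine tsum_congr fun v => ?_
      rw [dI_zero_two h]
      ring
    · refine ((s2.sub (s1.mul_left 3)).add s0).congr fun v => ?_
      rw [dI_zero_two h]
      ring
    · refine ((s1.sub s0).mul_left 3).congr fun v => ?_
      ring
  rw [h5]
  have h6 := abs_le.1 h3
  have h7 := abs_le.1 h4
  have h8 : 0 ≤ C2 := (abs_nonneg _).trans h4
  rw [abs_le]
  constructor <;> linarith [h6.1, h6.2, h7.1, h7.2]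

theorem quad {α : HeightOneSpectrum (𝓞 E) → Fin 2 → ℂ} (h : CuspidalGL2 S α)
    (h2 : Module.finrank K E = 2) (lam : ℝ) :
    ∃ C : ℝ, ∀ t : ℝ, 1 < t → ∑' v : IP E S, (zz (aw α v) - lam) ^ 2 * (Nm v.1 : ℝ) ^ (-t) ≤
      (1 + (1 - lam) ^ 2) * ∑' v : IP E S, (Nm v.1 : ℝ) ^ (-t) + C := by
  obtain ⟨C1, hC1⟩ := mean_one h h2
  obtain ⟨C2, hC2⟩ := mean_two h h2
  refine ⟨C2 + 2 * |lam| * C1, fun t ht => ?_⟩
  have h3 := hC1 t ht
  have h4 := hC2 t ht
  have s0 := summable_IP (E := E) (S := S) ht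
  have s1 := summable_zz1 h h2 ht
  have s2 := summable_zz h h2 ht
  have h5 : ∑' v : IP E S, (zz (aw α v) - lam) ^ 2 * (Nm v.1 : ℝ) ^ (-t) =
      (∑' v : IP E S, (zz (aw α v) ^ 2 - 2) * (Nm v.1 : ℝ) ^ (-t)) +
        ((-2 * lam) * (∑' v : IP E S, (zz (aw α v) - 1) * (Nm v.1 : ℝ) ^ (-t)) +
          (1 + (1 - lam) ^ 2) * ∑' v : IP E S, (Nm v.1 : ℝ) ^ (-t)) := by
    have t1 : Summable fun v : IP E S => (zz (aw α v) ^ 2 - 2) * (Nm v.1 : ℝ) ^ (-t) :=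
      (s2.sub (s0.mul_left 2)).congr fun v => by ring
    have t2 : Summable fun v : IP E S => (zz (aw α v) - 1) * (Nm v.1 : ℝ) ^ (-t) :=
      (s1.sub s0).congr fun v => by ring
    rw [← tsum_mul_left, ← tsum_mul_left, ← (t2.mul_left _).tsum_add (s0.mul_left _),
      ← t1.tsum_add ((t2.mul_left _).add (s0.mul_left _))]
    refine tsum_congr fun v => ?_
    ring
  rw [h5]
  have h6 : (-2 * lam) * (∑' v : IP E S, (zz (aw α v) - 1) * (Nm v.1 : ℝ) ^ (-t)) ≤ 2 * |lam| * C1 := by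
    refine (le_abs_self _).trans ?_
    rw [abs_mul, abs_mul, abs_neg, abs_two]
    exact mul_le_mul_of_nonneg_left h3 (by positivity)
  have h7 := (abs_le.1 h4).2
  linarith

open scoped Classical in
theorem large {α : HeightOneSpectrum (𝓞 E) → Fin 2 → ℂ} (h : CuspidalGL2 S α)
    (h2 : Module.finrank K E = 2) (Z : ℝ) (hZ : 1 < Z) :
    ∃ C : ℝ, ∀ t : ℝ, 1 < t →
      (1 + (Z - 1) ^ 2) * ∑' v : IP E S, (if Z ≤ zz (aw α v) then (Nm v.1 : ℝ) ^ (-t) else 0) ≤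
        ∑' v : IP E S, (Nm v.1 : ℝ) ^ (-t) + C := by
  set lam : ℝ := 1 - 1 / (Z - 1) with hlam
  obtain ⟨C, hC⟩ := quad h h2 lam
  have hZ1 : 0 < Z - 1 := by linarith
  have hq : 0 < (Z - 1) ^ 2 + 1 := by positivity
  refine ⟨C * ((Z - 1) ^ 2 / ((Z - 1) ^ 2 + 1)), fun t ht => ?_⟩
  have h3 := hC t ht
  have s0 := summable_IP (E := E) (S := S) ht
  have s1 := summable_zz1 h h2 ht
  have s2 := summable_zz h h2 ht
  have hl : Z - lam = ((Z - 1) ^ 2 + 1) / (Z - 1) := by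
    rw [hlam]
    field_simp
    ring
  have hl0 : 0 < Z - lam := by rw [hl]; positivity
  have h4 : (Z - lam) ^ 2 * ∑' v : IP E S, (if Z ≤ zz (aw α v) then (Nm v.1 : ℝ) ^ (-t) else 0) ≤
      ∑' v : IP E S, (zz (aw α v) - lam) ^ 2 * (Nm v.1 : ℝ) ^ (-t) := by
    rw [← tsum_mul_left]
    refine Summable.tsum_le_tsum (fun v => ?_) ?_ ?_
    · split_ifs with hv
      · refine mul_le_mul_of_nonneg_right ?_ (rp_nonneg v t)
        exact pow_le_pow_left₀ hl0.le (by linarith) 2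
      · rw [mul_zero]
        exact mul_nonneg (sq_nonneg _) (rp_nonneg v t)
    · refine Summable.mul_left _ (Summable.of_nonneg_of_le (fun v => ?_) (fun v => ?_) s0)
      · split_ifs
        · exact rp_nonneg v t
        · exact le_rfl
      · split_ifs
        · exact le_rfl
        · exact rp_nonneg v t
    · refine ((s2.sub (s1.mul_left (2 * lam))).add (s0.mul_left (lam ^ 2))).congr fun v => ?_
      ring
  have h5 := h4.trans h3
  have e1 : 1 + (1 - lam) ^ 2 = ((Z - 1) ^ 2 + 1) / (Z - 1) ^ 2 := by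
    rw [hlam]
    field_simp
    ring
  rw [hl, e1] at h5
  have h6 := mul_le_mul_of_nonneg_right h5 (by positivity : (0 : ℝ) ≤ (Z - 1) ^ 2 / ((Z - 1) ^ 2 + 1))
  have e2 : (((Z - 1) ^ 2 + 1) / (Z - 1)) ^ 2 *
      (∑' v : IP E S, (if Z ≤ zz (aw α v) then (Nm v.1 : ℝ) ^ (-t) else 0)) *
      ((Z - 1) ^ 2 / ((Z - 1) ^ 2 + 1)) =
      (1 + (Z - 1) ^ 2) * ∑' v : IP E S, (if Z ≤ zz (aw α v) then (Nm v.1 : ℝ) ^ (-t) else 0) := by
    field_simp
    ring
  have e3 : (((Z - 1) ^ 2 + 1) / (Z - 1) ^ 2 * (∑' v : IP E S, (Nm v.1 : ℝ) ^ (-t)) + C) *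
      ((Z - 1) ^ 2 / ((Z - 1) ^ 2 + 1)) =
      (∑' v : IP E S, (Nm v.1 : ℝ) ^ (-t)) + C * ((Z - 1) ^ 2 / ((Z - 1) ^ 2 + 1)) := by
    field_simp
  rw [e2, e3] at h6
  exact h6

open scoped Classical in
theorem nontempered {α : HeightOneSpectrum (𝓞 E) → Fin 2 → ℂ} (h : CuspidalGL2 S α)
    (h2 : Module.finrank K E = 2) :
    ∃ C : ℝ, ∀ t : ℝ, 1 < t →
      10 * ∑' v : IP E S, (if ∀ i, ‖aw α v i‖ = 1 then 0 else (Nm v.1 : ℝ) ^ (-t)) ≤
        ∑' v : IP E S, (Nm v.1 : ℝ) ^ (-t) + C := by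
  obtain ⟨C, hC⟩ := large h h2 4 (by norm_num)
  refine ⟨C, fun t ht => le_trans ?_ (hC t ht)⟩
  have s0 := summable_IP (E := E) (S := S) ht
  have e : 1 + ((4 : ℝ) - 1) ^ 2 = 10 := by norm_num
  rw [e]
  refine mul_le_mul_of_nonneg_left ?_ (by norm_num)
  refine Summable.tsum_le_tsum (fun v => ?_) ?_ ?_
  · by_cases h3 : ∀ i, ‖aw α v i‖ = 1
    · rw [if_pos h3]
      split_ifs
      · exact rp_nonneg v t
      · exact le_rfl
    · rw [if_neg h3, if_pos (four_le_zz (uni α h v) h3)]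
  · refine Summable.of_nonneg_of_le (fun v => ?_) (fun v => ?_) s0
    · split_ifs
      · exact le_rfl
      · exact rp_nonneg v t
    · split_ifs
      · exact rp_nonneg v t
      · exact le_rfl
  · refine Summable.of_nonneg_of_le (fun v => ?_) (fun v => ?_) s0
    · split_ifs
      · exact rp_nonneg v t
      · exact le_rfl
    · split_ifs
      · exact le_rfl
      · exact rp_nonneg v t

end Pool.Agent.R398.AS
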