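import Mathlib
import Pool.Agent.R398.AS.Fin
import Pool.Agent.H921R2.TatePole.Main

/-! There are many inert places. -/

set_option autoImplicit false
set_option linter.unusedSectionVars false

namespace Pool.Agent.R398.AS

open NumberField IsDedekindDomain Filter Topology

variable {K E : Type} [Field K] [NumberField K] [Field E] [NumberField E] [Algebra K E]
  {S : Finset (HeightOneSpectrum (𝓞 K))}

theorem above_of_le {v : HeightOneSpectrum (𝓞 K)} {w : HeightOneSpectrum (𝓞 E)}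
    (h : v.asIdeal.map (algebraMap (𝓞 K) (𝓞 E)) ≤ w.asIdeal) : Above v w := by
  have h1 : v.asIdeal ≤ w.asIdeal.comap (algebraMap (𝓞 K) (𝓞 E)) := Ideal.map_le_iff_le_comap.1 h
  have h2 : v.asIdeal.IsMaximal := v.isPrime.isMaximal v.ne_bot
  have h3 : w.asIdeal.comap (algebraMap (𝓞 K) (𝓞 E)) ≠ ⊤ := by
    intro h4
    rw [Ideal.eq_top_iff_one, Ideal.mem_comap, map_one] at h4
    exact w.isPrime.ne_top ((Ideal.eq_top_iff_one _).2 h4)
  exact (h2.eq_of_le h3 h1).symm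

theorem Nm_le_of_above {v : HeightOneSpectrum (𝓞 K)} {w : HeightOneSpectrum (𝓞 E)} (h : Above v w) :
    Nm v ≤ Nm w := by
  have hl : w.asIdeal.LiesOver v.asIdeal := ⟨h.symm⟩
  have h1 := Ideal.absNorm_eq_pow_inertiaDeg'_of_liesOver w.asIdeal v.asIdeal v.isPrime v.ne_bot
  have h2 := two_le_Nm w
  have h3 := two_le_Nm v
  unfold Nm at *
  rw [h1] at h2 ⊢
  refine Nat.le_self_pow ?_ _
  intro h0
  rw [h0, pow_zero] at h2
  omega

theorem split_pair (h2 : Module.finrank K E = 2) {v : HeightOneSpectrum (𝓞 K)} (hv : ¬ Inert E v) :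
    ∃ w w' : HeightOneSpectrum (𝓞 E), Above v w ∧ Above v w' ∧
      w.asIdeal * w'.asIdeal ∣ v.asIdeal.map (algebraMap (𝓞 K) (𝓞 E)) := by
  set I := v.asIdeal.map (algebraMap (𝓞 K) (𝓞 E)) with hI
  have hI0 : I ≠ ⊥ := Ideal.map_ne_bot_of_ne_bot v.ne_bot
  have hN : Ideal.absNorm I = Nm v ^ 2 := by
    rw [hI, Ideal.absNorm_algebraMap, ← h2, ← IsFractionRing.finrank_eq (𝓞 K) K (𝓞 E) E]
    rfl
  have hI1 : I ≠ ⊤ := by
    intro h
    rw [h, Ideal.absNorm_top] at hN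
    have := two_le_Nm v
    nlinarith
  obtain ⟨P, hP, hIP⟩ := Ideal.exists_le_maximal I hI1
  have hP0 : P ≠ ⊥ := fun h => hI0 (le_bot_iff.1 (h ▸ hIP))
  obtain ⟨J, hJ⟩ := Ideal.dvd_iff_le.2 hIP
  have hJ1 : J ≠ ⊤ := by
    intro h
    rw [h, Ideal.mul_top] at hJ
    exact hv (by unfold Inert; rw [← hI, hJ]; exact hP.isPrime)
  have hJ0 : J ≠ ⊥ := by
    intro h
    rw [h, Ideal.mul_bot] at hJ
    exact hI0 hJ
  obtain ⟨Q, hQ, hJQ⟩ := Ideal.exists_le_maximal J hJ1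
  have hQ0 : Q ≠ ⊥ := fun h => hJ0 (le_bot_iff.1 (h ▸ hJQ))
  obtain ⟨J', hJ'⟩ := Ideal.dvd_iff_le.2 hJQ
  refine ⟨⟨P, hP.isPrime, hP0⟩, ⟨Q, hQ.isPrime, hQ0⟩, above_of_le hIP, above_of_le ?_, ?_⟩
  · show I ≤ Q
    rw [hJ]
    exact Ideal.mul_le_right.trans hJQ
  · show P * Q ∣ I
    rw [hJ, hJ']
    exact ⟨J', by ring⟩

theorem Nm_pair (h2 : Module.finrank K E = 2) {v : HeightOneSpectrum (𝓞 K)} {w w' : HeightOneSpectrum (𝓞 E)}
    (h : Above v w) (h' : Above v w')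
    (hd : w.asIdeal * w'.asIdeal ∣ v.asIdeal.map (algebraMap (𝓞 K) (𝓞 E))) : Nm w = Nm v ∧ Nm w' = Nm v := by
  have hN : Ideal.absNorm (v.asIdeal.map (algebraMap (𝓞 K) (𝓞 E))) = Nm v ^ 2 := by
    rw [Ideal.absNorm_algebraMap, ← h2, ← IsFractionRing.finrank_eq (𝓞 K) K (𝓞 E) E]
    rfl
  have h3 := (map_dvd Ideal.absNorm hd)
  rw [hN, map_mul] at h3
  have h0 := two_le_Nm v
  have h4 : Nm w * Nm w' ≤ Nm v ^ 2 := Nat.le_of_dvd (by positivity) h3
  have h5 := Nm_le_of_above h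
  have h6 := Nm_le_of_above h'
  constructor
  · refine le_antisymm ?_ h5
    by_contra hc
    push Not at hc
    nlinarith
  · refine le_antisymm ?_ h6
    by_contra hc
    push Not at hc
    nlinarith

variable (K E) in
/-- the ramified places -/
def RR : Set (HeightOneSpectrum (𝓞 K)) :=
  {v | ∃ w : HeightOneSpectrum (𝓞 E), Above v w ∧ w.asIdeal ∣ differentIdeal (𝓞 K) (𝓞 E)}

theorem RR_finite : (RR K E).Finite := by
  have h1 := Ideal.finite_factors (R := 𝓞 E) (I := differentIdeal (𝓞 K) (𝓞 E)) differentIdeal_ne_bot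
  refine Set.Finite.of_finite_image (f := fun v : HeightOneSpectrum (𝓞 K) => v.asIdeal)
    ((h1.image (fun w : HeightOneSpectrum (𝓞 E) => w.asIdeal.comap (algebraMap (𝓞 K) (𝓞 E)))).subset ?_)
    (fun v _ w _ hvw => HeightOneSpectrum.ext hvw)
  rintro _ ⟨v, ⟨w, hw, hd⟩, rfl⟩
  exact ⟨w, hd, hw⟩

theorem pair_ne {v : HeightOneSpectrum (𝓞 K)} (hv : v ∉ RR K E)
    {w w' : HeightOneSpectrum (𝓞 E)} (h : Above v w)
    (hd : w.asIdeal * w'.asIdeal ∣ v.asIdeal.map (algebraMap (𝓞 K) (𝓞 E))) : w ≠ w' := by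
  rintro rfl
  apply hv
  refine ⟨w, h, ?_⟩
  have hm : v.asIdeal.IsMaximal := v.isPrime.isMaximal v.ne_bot
  have := pow_sub_one_dvd_differentIdeal (𝓞 K) w.asIdeal 2 (p := v.asIdeal) v.ne_bot (by rwa [sq])
  simpa using this

theorem non_inert_le (h2 : Module.finrank K E = 2) {x : ℝ} (hx : 1 < x) :
    2 * ∑' v : {v : HeightOneSpectrum (𝓞 K) // ¬ Inert E v ∧ v ∉ RR K E}, (Nm v.1 : ℝ) ^ (-x) ≤
      ∑' w : HeightOneSpectrum (𝓞 E), (Nm w : ℝ) ^ (-x) := by
  choose! w0 w1 h0 h1 hd using fun (v : HeightOneSpectrum (𝓞 K)) (hv : ¬ Inert E v) => split_pair h2 hv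
  set NI := {v : HeightOneSpectrum (𝓞 K) // ¬ Inert E v ∧ v ∉ RR K E} with hNI
  set g : NI × Bool → HeightOneSpectrum (𝓞 E) := fun y => if y.2 then w0 y.1.1 y.1.2.1 else w1 y.1.1 y.1.2.1 with hg
  have hab : ∀ y : NI × Bool, Above y.1.1 (g y) := by
    rintro ⟨v, b⟩
    rw [hg]
    simp only
    split_ifs
    · exact h0 _ v.2.1
    · exact h1 _ v.2.1
  have hNm : ∀ y : NI × Bool, Nm (g y) = Nm y.1.1 := by
    rintro ⟨v, b⟩
    have h3 := Nm_pair h2 (h0 _ v.2.1) (h1 _ v.2.1) (hd _ v.2.1)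
    rw [hg]
    simp only
    split_ifs
    · exact h3.1
    · exact h3.2
  have hinj : Function.Injective g := by
    rintro ⟨v, b⟩ ⟨u, c⟩ h
    have e1 : v = u := by
      have h3 := hab (v, b)
      have h4 := hab (u, c)
      rw [← h] at h4
      exact Subtype.ext (HeightOneSpectrum.ext (h3.symm.trans h4))
    subst e1
    have hne := pair_ne v.2.2 (h0 _ v.2.1) (hd _ v.2.1)
    rw [hg] at h
    simp only at h
    refine Prod.ext rfl ?_
    show b = c
    cases b <;> cases c <;> simp_all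
  have hs := summable_Nm (K := E) hx
  have h3 : ∑' y : NI × Bool, (Nm (g y) : ℝ) ^ (-x) ≤ ∑' w : HeightOneSpectrum (𝓞 E), (Nm w : ℝ) ^ (-x) := by
    refine tsum_comp_le_tsum_of_inj hs (fun w => ?_) hinj
    have := (Nm_pos w).le
    positivity
  refine le_trans (le_of_eq ?_) h3
  have hs2 : Summable fun y : NI × Bool => (Nm (g y) : ℝ) ^ (-x) := hs.comp_injective hinj
  rw [hs2.tsum_prod, ← tsum_mul_left]
  refine tsum_congr fun v => ?_
  rw [tsum_fintype, Fintype.sum_bool, hNm, hNm]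
  ring

/-- the sum over the inert places tends to infinity -/
theorem inert_tendsto (h2 : Module.finrank K E = 2) (S : Finset (HeightOneSpectrum (𝓞 K))) :
    Tendsto (fun x : ℝ => ∑' v : IP E S, (Nm v.1 : ℝ) ^ (-x)) (𝓝[>] 1) atTop := by
  classical
  obtain ⟨C1, hC1⟩ := H921R2.TatePole.prime_sum_bdd (K := K)
  obtain ⟨C2, hC2⟩ := H921R2.TatePole.prime_sum_bdd (K := E)
  set F : Finset (HeightOneSpectrum (𝓞 K)) := S ∪ (RR_finite (K := K) (E := E)).toFinset with hF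
  refine tendsto_atTop_mono' (𝓝[>] 1)
    (f₁ := fun x => 1 / 2 * H921R2.TatePole.Lam x - (C1 + C2 + F.card)) ?_
    (tendsto_atTop_add_const_right _ _ (H921R2.TatePole.Lam_tendsto.const_mul_atTop (by norm_num)))
  filter_upwards [hC1, hC2, self_mem_nhdsWithin] with x h3 h4 hx
  have hx1 : (1 : ℝ) < x := hx
  have h5 : ∑' v : HeightOneSpectrum (𝓞 K), (Nm v : ℝ) ^ (-x) ≥ H921R2.TatePole.Lam x - C1 := by
    have := (abs_le.1 h3).1
    have e : ∑' v : HeightOneSpectrum (𝓞 K), (Nm v : ℝ) ^ (-x) =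
      ∑' v : HeightOneSpectrum (𝓞 K), (H921R2.TatePole.nm v : ℝ) ^ (-x) := rfl
    rw [e]
    linarith
  have h6 : ∑' w : HeightOneSpectrum (𝓞 E), (Nm w : ℝ) ^ (-x) ≤ H921R2.TatePole.Lam x + C2 := by
    have := (abs_le.1 h4).2
    have e : ∑' v : HeightOneSpectrum (𝓞 E), (Nm v : ℝ) ^ (-x) =
      ∑' v : HeightOneSpectrum (𝓞 E), (H921R2.TatePole.nm v : ℝ) ^ (-x) := rfl
    rw [e]
    linarith
  have h7 := non_inert_le h2 hx1
  have hs := summable_Nm (K := K) hx1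
  have hpos : ∀ v : HeightOneSpectrum (𝓞 K), 0 ≤ (Nm v : ℝ) ^ (-x) := fun v => by
    have := (Nm_pos v).le
    positivity
  set A : Set (HeightOneSpectrum (𝓞 K)) := {v | v ∉ S ∧ Inert E v} with hA
  set B : Set (HeightOneSpectrum (𝓞 K)) := {v | ¬ Inert E v ∧ v ∉ RR K E} with hB
  have e1 : ∑' v : IP E S, (Nm v.1 : ℝ) ^ (-x) = ∑' v, A.indicator (fun v => (Nm v : ℝ) ^ (-x)) v :=
    tsum_subtype A (fun v => (Nm v : ℝ) ^ (-x))
  have e2 : ∑' v : {v : HeightOneSpectrum (𝓞 K) // ¬ Inert E v ∧ v ∉ RR K E}, (Nm v.1 : ℝ) ^ (-x) =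
      ∑' v, B.indicator (fun v => (Nm v : ℝ) ^ (-x)) v :=
    tsum_subtype B (fun v => (Nm v : ℝ) ^ (-x))
  have e3 : ∑' v, (F : Set (HeightOneSpectrum (𝓞 K))).indicator (fun _ => (1 : ℝ)) v = F.card := by
    rw [← tsum_subtype]
    simp
  have s1 : Summable fun v => A.indicator (fun v => (Nm v : ℝ) ^ (-x)) v := hs.indicator A
  have s2 : Summable fun v => B.indicator (fun v => (Nm v : ℝ) ^ (-x)) v := hs.indicator B
  have s3 : Summable fun v => (F : Set (HeightOneSpectrum (𝓞 K))).indicator (fun _ => (1 : ℝ)) v := by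
    refine summable_of_ne_finset_zero (s := F) fun v hv => ?_
    exact Set.indicator_of_notMem (by simpa using hv) _
  have h8 : ∑' v : HeightOneSpectrum (𝓞 K), (Nm v : ℝ) ^ (-x) ≤
      ∑' v, (A.indicator (fun v => (Nm v : ℝ) ^ (-x)) v + (B.indicator (fun v => (Nm v : ℝ) ^ (-x)) v +
        (F : Set (HeightOneSpectrum (𝓞 K))).indicator (fun _ => (1 : ℝ)) v)) := by
    refine hs.tsum_le_tsum (fun v => ?_) (s1.add (s2.add s3))
    have i1 : 0 ≤ A.indicator (fun v => (Nm v : ℝ) ^ (-x)) v := Set.indicator_nonneg (fun v _ => hpos v) v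
    have i2 : 0 ≤ B.indicator (fun v => (Nm v : ℝ) ^ (-x)) v := Set.indicator_nonneg (fun v _ => hpos v) v
    have i3 : 0 ≤ (F : Set (HeightOneSpectrum (𝓞 K))).indicator (fun _ => (1 : ℝ)) v :=
      Set.indicator_nonneg (fun v _ => zero_le_one) v
    by_cases hvF : v ∈ F
    · have : (F : Set (HeightOneSpectrum (𝓞 K))).indicator (fun _ => (1 : ℝ)) v = 1 :=
        Set.indicator_of_mem (by simpa using hvF) _
      rw [this]
      have h9 : (Nm v : ℝ) ^ (-x) ≤ 1 := by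
        refine Real.rpow_le_one_of_one_le_of_nonpos ?_ (by linarith)
        exact one_le_two.trans (two_le_Nm' v)
      linarith
    · rw [hF, Finset.mem_union, not_or, Set.Finite.mem_toFinset] at hvF
      by_cases hi : Inert E v
      · have : A.indicator (fun v => (Nm v : ℝ) ^ (-x)) v = (Nm v : ℝ) ^ (-x) :=
          Set.indicator_of_mem (show v ∈ A from ⟨hvF.1, hi⟩) _
        linarith
      · have : B.indicator (fun v => (Nm v : ℝ) ^ (-x)) v = (Nm v : ℝ) ^ (-x) :=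
          Set.indicator_of_mem (show v ∈ B from ⟨hi, hvF.2⟩) _
        linarith
  rw [s1.tsum_add (s2.add s3), s2.tsum_add s3, ← e1, ← e2, e3] at h8
  have hC1' : 0 ≤ C1 := (abs_nonneg _).trans h3
  have hC2' : 0 ≤ C2 := (abs_nonneg _).trans h4
  linarith

end Pool.Agent.R398.AS
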