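import Mathlib
import Pool.Agent.R398.AS.Inf

/-! Several representations. -/

set_option autoImplicit false
set_option linter.unusedSectionVars false

namespace Pool.Agent.R398.AS

open NumberField IsDedekindDomain Filter Topology

variable {K E : Type} [Field K] [NumberField K] [Field E] [NumberField E] [Algebra K E]
  {S : Finset (HeightOneSpectrum (𝓞 K))}

open scoped Classical in
theorem family_le (h2 : Module.finrank K E = 2) {m : ℕ} {α : Fin m → HeightOneSpectrum (𝓞 E) → Fin 2 → ℂ}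
    (h : ∀ j, CuspidalGL2 S (α j)) :
    ∃ C : ℝ, ∀ t : ℝ, 1 < t →
      10 * ∑' v : IP E S, (if ∀ j i, ‖aw (α j) v i‖ = 1 then 0 else (Nm v.1 : ℝ) ^ (-t)) ≤
        m * ∑' v : IP E S, (Nm v.1 : ℝ) ^ (-t) + C := by
  choose C hC using fun j => nontempered (h j) h2
  refine ⟨∑ j, C j, fun t ht => ?_⟩
  have s0 := summable_IP (E := E) (S := S) ht
  have sj : ∀ j, Summable fun v : IP E S => (if ∀ i, ‖aw (α j) v i‖ = 1 then 0 else (Nm v.1 : ℝ) ^ (-t)) := by
    intro j
    refine Summable.of_nonneg_of_le (fun v => ?_) (fun v => ?_) s0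
    · split_ifs
      · exact le_rfl
      · exact rp_nonneg v t
    · split_ifs
      · exact rp_nonneg v t
      · exact le_rfl
  have s1 : Summable fun v : IP E S => (if ∀ j i, ‖aw (α j) v i‖ = 1 then 0 else (Nm v.1 : ℝ) ^ (-t)) := by
    refine Summable.of_nonneg_of_le (fun v => ?_) (fun v => ?_) s0
    · split_ifs
      · exact le_rfl
      · exact rp_nonneg v t
    · split_ifs
      · exact rp_nonneg v t
      · exact le_rfl
  have h3 : ∑' v : IP E S, (if ∀ j i, ‖aw (α j) v i‖ = 1 then 0 else (Nm v.1 : ℝ) ^ (-t)) ≤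
      ∑ j, ∑' v : IP E S, (if ∀ i, ‖aw (α j) v i‖ = 1 then 0 else (Nm v.1 : ℝ) ^ (-t)) := by
    rw [← Summable.tsum_finsetSum fun j _ => sj j]
    refine s1.tsum_le_tsum (fun v => ?_) (summable_sum fun j _ => sj j)
    have hn : ∀ j ∈ Finset.univ, 0 ≤ (if ∀ i, ‖aw (α j) v i‖ = 1 then 0 else (Nm v.1 : ℝ) ^ (-t)) := by
      intro j _
      split_ifs
      · exact le_rfl
      · exact rp_nonneg v t
    by_cases hv : ∀ j i, ‖aw (α j) v i‖ = 1
    · rw [if_pos hv]
      exact Finset.sum_nonneg hn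
    · rw [if_neg hv]
      push Not at hv
      obtain ⟨j, i, hji⟩ := hv
      have h4 := Finset.single_le_sum hn (Finset.mem_univ j)
      rw [if_neg] at h4
      · exact h4
      · intro h5
        exact hji (h5 i)
  calc _ ≤ 10 * ∑ j, ∑' v : IP E S, (if ∀ i, ‖aw (α j) v i‖ = 1 then 0 else (Nm v.1 : ℝ) ^ (-t)) := by linarith
    _ = ∑ j, 10 * ∑' v : IP E S, (if ∀ i, ‖aw (α j) v i‖ = 1 then 0 else (Nm v.1 : ℝ) ^ (-t)) := by
      rw [Finset.mul_sum]
    _ ≤ ∑ j, (∑' v : IP E S, (Nm v.1 : ℝ) ^ (-t) + C j) := Finset.sum_le_sum fun j _ => hC j t ht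
    _ = _ := by
      rw [Finset.sum_add_distrib, Finset.sum_const, Finset.card_univ, Fintype.card_fin, nsmul_eq_mul]

open scoped Classical in
theorem family_density (h2 : Module.finrank K E = 2) {m : ℕ} {α : Fin m → HeightOneSpectrum (𝓞 E) → Fin 2 → ℂ}
    (h : ∀ j, CuspidalGL2 S (α j)) {ε : ℝ} (hε : 0 < ε) :
    ∀ᶠ t in 𝓝[>] (1 : ℝ), (1 - m / 10 - ε) * ∑' v : IP E S, (Nm v.1 : ℝ) ^ (-t) ≤
      ∑' v : IP E S, (if ∀ j i, ‖aw (α j) v i‖ = 1 then (Nm v.1 : ℝ) ^ (-t) else 0) := by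
  obtain ⟨C, hC⟩ := family_le h2 h
  have h3 := (inert_tendsto (E := E) h2 S).eventually (eventually_ge_atTop (C / (10 * ε)))
  filter_upwards [h3, self_mem_nhdsWithin] with t h4 ht
  have ht1 : (1 : ℝ) < t := ht
  have h5 := hC t ht1
  have s0 := summable_IP (E := E) (S := S) ht1
  have s1 : Summable fun v : IP E S => (if ∀ j i, ‖aw (α j) v i‖ = 1 then 0 else (Nm v.1 : ℝ) ^ (-t)) := by
    refine Summable.of_nonneg_of_le (fun v => ?_) (fun v => ?_) s0
    · split_ifs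
      · exact le_rfl
      · exact rp_nonneg v t
    · split_ifs
      · exact rp_nonneg v t
      · exact le_rfl
  have e : ∑' v : IP E S, (if ∀ j i, ‖aw (α j) v i‖ = 1 then (Nm v.1 : ℝ) ^ (-t) else 0) =
      ∑' v : IP E S, (Nm v.1 : ℝ) ^ (-t) -
        ∑' v : IP E S, (if ∀ j i, ‖aw (α j) v i‖ = 1 then 0 else (Nm v.1 : ℝ) ^ (-t)) := by
    rw [← s0.tsum_sub s1]
    refine tsum_congr fun v => ?_
    split_ifs <;> ring
  rw [e]
  rw [div_le_iff₀ (by positivity)] at h4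
  nlinarith

end Pool.Agent.R398.AS
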